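import Pool.Agent.DRW.Defs

/-!
# Conservation of probability

A word `i :: l` is a return, an exit or alive at time `n + 1` exactly if `l` is alive at time `n`
(`cases_iff`), and `∑ i, P w (i :: l) = P w l` (`sum_P`).
-/

namespace Pool.Agent.DRW

/-- the traversals of the four edges at `x` are the visits to `x` -/
theorem sum_count (x : ℤ × ℤ) (L : List ((ℤ × ℤ) × Fin 4)) :
    ∑ i, L.count (x, i) = (L.map Prod.fst).count x := by
  induction L with
  | nil => simp
  | cons a L ih =>
    rw [List.map_cons, List.count_cons, ← ih]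
    have h1 : ∀ i : Fin 4, (a :: L).count (x, i) = L.count (x, i) + if a == (x, i) then 1 else 0 :=
      fun i => List.count_cons
    simp only [h1]
    rw [Finset.sum_add_distrib]
    congr 1
    obtain ⟨y, j⟩ := a
    by_cases hxy : y = x
    · subst hxy
      rw [Finset.sum_eq_single j]
      · simp
      · intro b _ hb
        rw [if_neg]
        simp [hb.symm]
      · intro h
        exact absurd (Finset.mem_univ j) h
    · rw [Finset.sum_eq_zero]
      · simp [hxy]
      · intro i _
        rw [if_neg]
        simp [hxy]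

theorem sum_P {w : ℤ × ℤ → Fin 4 → ℝ} (hw : ∀ x i, 0 < w x i) (l : List (Fin 4)) :
    ∑ i, P w (i :: l) = P w l := by
  have h1 : ∀ i, P w (i :: l) = P w l * (w (pos l) i + ((tr l).count (pos l, i) : ℝ)) /
      (W w (pos l) + ((src l).count (pos l) : ℝ)) := fun i => by
    rw [mul_div_assoc]
    rfl
  simp only [h1]
  rw [← Finset.sum_div, ← Finset.mul_sum, Finset.sum_add_distrib]
  have h2 : ∑ i, ((tr l).count (pos l, i) : ℝ) = ((src l).count (pos l) : ℝ) := by
    have := sum_count (pos l) (tr l)
    exact_mod_cast this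
  have h3 : ∑ i, w (pos l) i = W w (pos l) := rfl
  rw [h2, h3]
  have h4 : 0 < W w (pos l) := Finset.sum_pos (fun i _ => hw _ i) Finset.univ_nonempty
  have h5 : (0 : ℝ) ≤ ((src l).count (pos l) : ℝ) := Nat.cast_nonneg _
  rw [mul_div_assoc, div_self (by positivity), mul_one]

/-- the origin is visited by every nonempty path -/
theorem zero_mem_src (i : Fin 4) (l : List (Fin 4)) : (0 : ℤ × ℤ) ∈ src (i :: l) := by
  induction l generalizing i with
  | nil => exact List.mem_cons_self
  | cons j l ih => exact List.mem_cons_of_mem _ (ih j)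

theorem alive_iff {B : Finset (ℤ × ℤ)} (h0 : (0 : ℤ × ℤ) ∈ B) (l : List (Fin 4)) :
    Alive B l ↔ (pos l :: src l).count 0 = 1 ∧ ∀ v ∈ pos l :: src l, v ∈ B := by
  cases l with
  | nil =>
    constructor
    · intro _
      refine ⟨by decide, ?_⟩
      intro v hv
      have hv' : v ∈ [(0 : ℤ × ℤ)] := hv
      rw [List.mem_singleton] at hv'
      rw [hv']
      exact h0
    · intro _
      exact Or.inl rfl
  | cons j l =>
    constructor
    · rintro (h | ⟨h1, h2, h3, h4⟩)
      · exact absurd h (List.cons_ne_nil j l)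
      · refine ⟨?_, ?_⟩
        · rw [List.count_cons_of_ne h2]
          exact h3
        · intro v hv
          rcases List.mem_cons.mp hv with rfl | hv
          · exact h1
          · exact h4 v hv
    · rintro ⟨h1, h2⟩
      right
      have h3 : 0 < (src (j :: l)).count 0 := List.count_pos_iff.mpr (zero_mem_src j l)
      have h4 : pos (j :: l) ≠ 0 := by
        intro h
        rw [h, List.count_cons_self] at h1
        omega
      rw [List.count_cons_of_ne h4] at h1
      exact ⟨h2 _ List.mem_cons_self, h4, h1, fun v hv => h2 v (List.mem_cons_of_mem _ hv)⟩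

open Classical in
theorem cases_iff {B : Finset (ℤ × ℤ)} (h0 : (0 : ℤ × ℤ) ∈ B) (i : Fin 4) (l : List (Fin 4))
    (c : ℝ) : (if Ret B (i :: l) then c else 0) + (if Exit B (i :: l) then c else 0) +
      (if Alive B (i :: l) then c else 0) = if Alive B l then c else 0 := by
  by_cases h : Alive B l
  · rw [if_pos h]
    obtain ⟨h1, h2⟩ := (alive_iff h0 l).mp h
    by_cases hB : pos (i :: l) ∈ B
    · by_cases hz : pos (i :: l) = 0
      · rw [if_pos (show Ret B (i :: l) from ⟨hz, h1, h2⟩),
          if_neg (show ¬ Exit B (i :: l) from fun h3 => h3.1 hB),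
          if_neg (show ¬ Alive B (i :: l) from ?_), add_zero, add_zero]
        rintro (h3 | h3)
        · exact absurd h3 (List.cons_ne_nil i l)
        · exact h3.2.1 hz
      · rw [if_neg (show ¬ Ret B (i :: l) from fun h3 => hz h3.1),
          if_neg (show ¬ Exit B (i :: l) from fun h3 => h3.1 hB),
          if_pos (show Alive B (i :: l) from Or.inr ⟨hB, hz, h1, h2⟩), zero_add, zero_add]
    · rw [if_neg (show ¬ Ret B (i :: l) from fun h3 => hB (by rw [h3.1]; exact h0)),
        if_pos (show Exit B (i :: l) from ⟨hB, h1, h2⟩),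
        if_neg (show ¬ Alive B (i :: l) from ?_), add_zero, zero_add]
      rintro (h3 | h3)
      · exact absurd h3 (List.cons_ne_nil i l)
      · exact hB h3.1
  · rw [if_neg h]
    have h4 : ¬ ((src (i :: l)).count 0 = 1 ∧ ∀ v ∈ src (i :: l), v ∈ B) :=
      fun h3 => h ((alive_iff h0 l).mpr h3)
    rw [if_neg (show ¬ Ret B (i :: l) from fun h3 => h4 h3.2),
      if_neg (show ¬ Exit B (i :: l) from fun h3 => h4 h3.2),
      if_neg (show ¬ Alive B (i :: l) from ?_), add_zero, add_zero]
    rintro (h3 | h3)
    · exact absurd h3 (List.cons_ne_nil i l)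
    · exact h4 h3.2.2

theorem sum_words (n : ℕ) (f : List (Fin 4) → ℝ) :
    ∑ l ∈ words (n + 1), f l = ∑ l ∈ words n, ∑ i, f (i :: l) := by
  have h : words (n + 1) = (Finset.univ ×ˢ words n).image
      (fun p : Fin 4 × List (Fin 4) => p.1 :: p.2) := rfl
  rw [h, Finset.sum_image, Finset.sum_product_right]
  intro a _ b _ hab
  obtain ⟨h1, h2⟩ := List.cons.inj hab
  exact Prod.ext h1 h2

theorem cons_step {w : ℤ × ℤ → Fin 4 → ℝ} (hw : ∀ x i, 0 < w x i) {B : Finset (ℤ × ℤ)}
    (h0 : (0 : ℤ × ℤ) ∈ B) (n : ℕ) :
    (∑ l ∈ retS B (n + 1), P w l) + (∑ l ∈ exitS B (n + 1), P w l) +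
      ∑ l ∈ aliveS B (n + 1), P w l = ∑ l ∈ aliveS B n, P w l := by
  classical
  unfold retS exitS aliveS
  rw [Finset.sum_filter, Finset.sum_filter, Finset.sum_filter, Finset.sum_filter, sum_words,
    sum_words, sum_words, ← Finset.sum_add_distrib, ← Finset.sum_add_distrib]
  refine Finset.sum_congr rfl fun l _ => ?_
  rw [← Finset.sum_add_distrib, ← Finset.sum_add_distrib]
  have h1 : ∀ i, (if Ret B (i :: l) then P w (i :: l) else 0) +
      (if Exit B (i :: l) then P w (i :: l) else 0) +
      (if Alive B (i :: l) then P w (i :: l) else 0) = if Alive B l then P w (i :: l) else 0 :=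
    fun i => cases_iff h0 i l _
  simp only [h1]
  by_cases h : Alive B l
  · simp only [if_pos h]
    exact sum_P hw l
  · simp only [if_neg h, Finset.sum_const_zero]

/-- Module Cons. -/
theorem cons_total {w : ℤ × ℤ → Fin 4 → ℝ} (hw : ∀ x i, 0 < w x i) {B : Finset (ℤ × ℤ)}
    (h0 : (0 : ℤ × ℤ) ∈ B) (n : ℕ) :
    (∑ m ∈ Finset.range (n + 1), ∑ l ∈ retS B m, P w l) +
      (∑ m ∈ Finset.range (n + 1), ∑ l ∈ exitS B m, P w l) + ∑ l ∈ aliveS B n, P w l = 1 := by
  classical
  induction n with
  | zero =>
    have h1 : retS B 0 = ∅ := by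
      unfold retS words
      rw [Finset.filter_eq_empty_iff]
      intro l hl
      rw [Finset.mem_singleton] at hl
      rw [hl]
      intro h
      exact absurd h.2.1 (by decide)
    have h2 : exitS B 0 = ∅ := by
      unfold exitS words
      rw [Finset.filter_eq_empty_iff]
      intro l hl
      rw [Finset.mem_singleton] at hl
      rw [hl]
      intro h
      exact h.1 h0
    have h3 : aliveS B 0 = {[]} := by
      unfold aliveS words
      rw [Finset.filter_eq_self]
      intro l hl
      rw [Finset.mem_singleton] at hl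
      exact Or.inl hl
    rw [zero_add, Finset.sum_range_one, Finset.sum_range_one, h1, h2, h3, Finset.sum_empty,
      Finset.sum_singleton, zero_add, zero_add]
    rfl
  | succ n ih =>
    rw [Finset.sum_range_succ _ (n + 1), Finset.sum_range_succ _ (n + 1)]
    have h1 := cons_step hw h0 n
    linarith

end Pool.Agent.DRW
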