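import Mathlib

/-!
# Directed-edge reinforced walk on the square lattice: paths and their probabilities

A path started at `x` is a list of steps (elements of `Fin 4`), the NEWEST step first.
`w x i` is the initial weight of the directed edge from `x` to `x + d i`.
-/

namespace Pool.Agent.DRW

/-- The four unit steps: right, up, left, down. -/
def d : Fin 4 → ℤ × ℤ := ![(1, 0), (0, 1), (-1, 0), (0, -1)]

/-- The opposite step. -/
def opp : Fin 4 → Fin 4 := ![2, 3, 0, 1]

/-- End point of the path `l` (newest step first) started at `x`. -/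
def posF (x : ℤ × ℤ) : List (Fin 4) → ℤ × ℤ
  | [] => x
  | i :: l => posF x l + d i

/-- Traversed directed edges of the path `l` started at `x`, newest first. -/
def trF (x : ℤ × ℤ) : List (Fin 4) → List ((ℤ × ℤ) × Fin 4)
  | [] => []
  | i :: l => (posF x l, i) :: trF x l

/-- Starting points of the traversed edges. -/
def srcF (x : ℤ × ℤ) (l : List (Fin 4)) : List (ℤ × ℤ) := (trF x l).map Prod.fst

/-- Paths from the origin. -/
abbrev pos (l : List (Fin 4)) : ℤ × ℤ := posF 0 l
abbrev tr (l : List (Fin 4)) : List ((ℤ × ℤ) × Fin 4) := trF 0 l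
abbrev src (l : List (Fin 4)) : List (ℤ × ℤ) := srcF 0 l

/-- Total outgoing weight. -/
noncomputable def W (w : ℤ × ℤ → Fin 4 → ℝ) (x : ℤ × ℤ) : ℝ := ∑ i, w x i

/-- Probability that the reinforced walk from the origin with initial weights `w` starts with
the path `l`. -/
noncomputable def P (w : ℤ × ℤ → Fin 4 → ℝ) : List (Fin 4) → ℝ
  | [] => 1
  | i :: l => P w l *
      ((w (pos l) i + ((tr l).count (pos l, i) : ℝ)) / (W w (pos l) + ((src l).count (pos l) : ℝ)))

/-- All paths with `n` steps. -/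
def words : ℕ → Finset (List (Fin 4))
  | 0 => {[]}
  | n + 1 => (Finset.univ ×ˢ words n).image (fun p : Fin 4 × List (Fin 4) => p.1 :: p.2)

/-- Neither returned to the origin nor left `B`. -/
def Alive (B : Finset (ℤ × ℤ)) (l : List (Fin 4)) : Prop :=
  l = [] ∨ (pos l ∈ B ∧ pos l ≠ 0 ∧ (src l).count 0 = 1 ∧ ∀ v ∈ src l, v ∈ B)

/-- First return to the origin, at the last step, inside `B`. -/
def Ret (B : Finset (ℤ × ℤ)) (l : List (Fin 4)) : Prop :=
  pos l = 0 ∧ (src l).count 0 = 1 ∧ ∀ v ∈ src l, v ∈ B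

/-- Exit from `B`, at the last step, without a return to the origin. -/
def Exit (B : Finset (ℤ × ℤ)) (l : List (Fin 4)) : Prop :=
  pos l ∉ B ∧ (src l).count 0 = 1 ∧ ∀ v ∈ src l, v ∈ B

open Classical in
noncomputable def aliveS (B : Finset (ℤ × ℤ)) (n : ℕ) : Finset (List (Fin 4)) :=
  (words n).filter (Alive B)

open Classical in
noncomputable def retS (B : Finset (ℤ × ℤ)) (n : ℕ) : Finset (List (Fin 4)) :=
  (words n).filter (Ret B)

open Classical in
noncomputable def exitS (B : Finset (ℤ × ℤ)) (n : ℕ) : Finset (List (Fin 4)) :=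
  (words n).filter (Exit B)

/-- The Pólya urn flow of the first quadrant: `flow x i` is the flow from `x` to `x + d i`. -/
noncomputable def flow (x : ℤ × ℤ) (i : Fin 4) : ℝ :=
  if 0 ≤ x.1 ∧ 0 ≤ x.2 then
    (![((x.1 : ℝ) + 1) / (((x.1 : ℝ) + x.2 + 1) * ((x.1 : ℝ) + x.2 + 2)),
       ((x.2 : ℝ) + 1) / (((x.1 : ℝ) + x.2 + 1) * ((x.1 : ℝ) + x.2 + 2)),
       -(x.1 : ℝ) / (((x.1 : ℝ) + x.2) * ((x.1 : ℝ) + x.2 + 1)),
       -(x.2 : ℝ) / (((x.1 : ℝ) + x.2) * ((x.1 : ℝ) + x.2 + 1))] : Fin 4 → ℝ) i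
  else 0

/-- The weights `a + g * flow`. -/
noncomputable def wt (a g : ℝ) (x : ℤ × ℤ) (i : Fin 4) : ℝ := a + g * flow x i

/-- The ball of radius `N` (strict) in the graph distance. -/
noncomputable def ball (N : ℕ) : Finset (ℤ × ℤ) :=
  (Finset.Icc (-(N : ℤ)) N ×ˢ Finset.Icc (-(N : ℤ)) N).filter
    (fun x => x.1.natAbs + x.2.natAbs < N)

end Pool.Agent.DRW
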