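import Pool.Agent.DRW.Defs

/-!
# From the law of the walk to the path sums
-/

namespace Pool.Agent.DRW

open Finset

/-- the sequence `s` follows the path `l` -/
def Agree (l : List (Fin 4)) (s : ℕ → ℤ × ℤ) : Prop :=
  ∀ k ≤ l.length, s k = pos (l.drop (l.length - k))

theorem Agree.last {l : List (Fin 4)} {s : ℕ → ℤ × ℤ} (h : Agree l s) : s l.length = pos l := by
  have := h l.length le_rfl
  simpa using this

theorem Agree.zero {l : List (Fin 4)} {s : ℕ → ℤ × ℤ} (h : Agree l s) : s 0 = 0 := by
  have := h 0 (Nat.zero_le _)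
  simpa [pos, posF] using this

theorem Agree.tail {i : Fin 4} {l : List (Fin 4)} {s : ℕ → ℤ × ℤ} (h : Agree (i :: l) s) :
    Agree l s := by
  intro k hk
  have h1 := h k (by simp only [List.length_cons]; omega)
  rw [h1]
  have h2 : (i :: l).length - k = (l.length - k) + 1 := by
    simp only [List.length_cons]
    omega
  rw [h2, List.drop_succ_cons]

theorem Agree.head {i : Fin 4} {l : List (Fin 4)} {s : ℕ → ℤ × ℤ} (h : Agree (i :: l) s) :
    s (l.length + 1) = pos l + d i := by
  have := h.last
  simpa [pos, posF] using this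

theorem agree_path (l : List (Fin 4)) : Agree l (fun k => pos (l.drop (l.length - k))) :=
  fun _ _ => rfl

theorem d_inj : Function.Injective d := by
  intro i j h
  fin_cases i <;> fin_cases j <;> simp_all [d]

theorem count_src {l : List (Fin 4)} {s : ℕ → ℤ × ℤ} (h : Agree l s) (y : ℤ × ℤ) :
    ((range l.length).filter (fun j => s j = y)).card = (src l).count y := by
  induction l with
  | nil => simp [srcF, trF]
  | cons i l ih =>
    have h1 := ih h.tail
    have h2 : src (i :: l) = pos l :: src l := rfl
    rw [h2, List.length_cons, Finset.range_add_one, Finset.filter_insert, List.count_cons, h.tail.last]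
    by_cases h3 : pos l = y
    · rw [if_pos h3, Finset.card_insert_of_notMem (by simp), h1]
      simp [h3]
    · rw [if_neg h3, h1]
      simp [h3]

theorem count_tr {l : List (Fin 4)} {s : ℕ → ℤ × ℤ} (h : Agree l s) (y : ℤ × ℤ) (i : Fin 4) :
    ((range l.length).filter (fun j => s j = y ∧ s (j + 1) = y + d i)).card =
      (tr l).count (y, i) := by
  induction l with
  | nil => simp [trF]
  | cons i' l ih =>
    have h1 := ih h.tail
    have h2 : tr (i' :: l) = (pos l, i') :: tr l := rfl
    rw [h2, List.length_cons, Finset.range_add_one, Finset.filter_insert, List.count_cons, h.tail.last, h.head]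
    by_cases h3 : pos l = y ∧ pos l + d i' = y + d i
    · rw [if_pos h3, Finset.card_insert_of_notMem (by simp), h1]
      have h4 : i' = i := by
        apply d_inj
        have := h3.2
        rw [h3.1] at this
        exact add_left_cancel this
      simp [h3.1, h4]
    · rw [if_neg h3, h1]
      have h4 : ¬ ((pos l, i') = (y, i)) := by
        intro h5
        rw [Prod.mk.injEq] at h5
        exact h3 ⟨h5.1, by rw [h5.1, h5.2]⟩
      simp only [beq_iff_eq, if_neg h4, add_zero]

theorem wt_zero (a : ℝ) (x : ℤ × ℤ) (i : Fin 4) : wt a 0 x i = a := by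
  simp [wt]

theorem W_zero (a : ℝ) (x : ℤ × ℤ) : W (wt a 0) x = 4 * a := by
  simp [W, wt_zero]

theorem P_nonneg {a : ℝ} (ha : 0 < a) (l : List (Fin 4)) : 0 ≤ P (wt a 0) l := by
  induction l with
  | nil => simp [P]
  | cons i l ih =>
    rw [P, wt_zero, W_zero]
    positivity

theorem natAbs_d (i : Fin 4) : (d i).1.natAbs + (d i).2.natAbs = 1 := by
  fin_cases i <;> simp [d]

theorem prod_eq {a : ℝ} {l : List (Fin 4)} {s : ℕ → ℤ × ℤ} (h : Agree l s) :
    (∏ k ∈ Finset.range l.length,
        (if (s (k+1) - s k).1.natAbs + (s (k+1) - s k).2.natAbs = 1 then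
          (a + (((Finset.range k).filter (fun j => s j = s k ∧ s (j+1) = s (k+1))).card : ℝ)) /
          (4 * a + (((Finset.range k).filter (fun j => s j = s k)).card : ℝ))
        else 0)) = P (wt a 0) l := by
  induction l with
  | nil => simp [P]
  | cons i l ih =>
    rw [List.length_cons, Finset.prod_range_succ, ih h.tail, P, wt_zero, W_zero]
    congr 1
    have h1 := count_src h.tail (pos l)
    have h2 := count_tr h.tail (pos l) i
    rw [h.head, h.tail.last, if_pos, h1, h2]
    rw [add_sub_cancel_left]
    exact natAbs_d i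

theorem agree_inj {l l' : List (Fin 4)} {s : ℕ → ℤ × ℤ} (h : Agree l s) (h' : Agree l' s)
    (hl : l.length = l'.length) : l = l' := by
  induction l generalizing l' with
  | nil =>
    have : l'.length = 0 := by simpa using hl.symm
    exact (List.eq_nil_of_length_eq_zero this).symm
  | cons i l ih =>
    cases l' with
    | nil => simp at hl
    | cons i' l' =>
      have hl' : l.length = l'.length := by simpa using hl
      have h1 : l = l' := ih h.tail h'.tail hl'
      subst h1
      have h2 := h.head
      rw [h'.head] at h2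
      rw [d_inj (add_left_cancel h2)]

theorem mem_src {l : List (Fin 4)} {s : ℕ → ℤ × ℤ} (h : Agree l s) {k : ℕ} (hk : k < l.length) :
    s k ∈ src l := by
  rw [← List.count_pos_iff, ← count_src h]
  exact Finset.card_pos.2 ⟨k, by simp [hk]⟩

theorem length_words {n : ℕ} {l : List (Fin 4)} (h : l ∈ words n) : l.length = n := by
  induction n generalizing l with
  | zero => simp only [words, mem_singleton] at h; simp [h]
  | succ n ih =>
    simp only [words, mem_image, mem_product, mem_univ, true_and] at h
    obtain ⟨⟨i, l'⟩, h1, rfl⟩ := h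
    simp [ih h1]

theorem mem_ball {N : ℕ} {x : ℤ × ℤ} : x ∈ ball N ↔ x.1.natAbs + x.2.natAbs < N := by
  simp only [ball, mem_filter, mem_product, mem_Icc]
  constructor
  · exact fun h => h.2
  · intro h
    exact ⟨⟨⟨by omega, by omega⟩, by omega, by omega⟩, h⟩

/-- Module Meas. -/
theorem measure_exit {a : ℝ} (ha : 0 < a) {Ω : Type} [MeasurableSpace Ω]
    (μ : MeasureTheory.Measure Ω) [MeasureTheory.IsProbabilityMeasure μ] (X : ℕ → Ω → ℤ × ℤ)
    (hX : ∀ n, Measurable (X n))
    (hlaw : ∀ (n : ℕ) (s : ℕ → ℤ × ℤ), μ {ω | ∀ k ≤ n, X k ω = s k} =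
     if s 0 = 0 then
       ENNReal.ofReal (∏ k ∈ Finset.range n,
        (if (s (k+1) - s k).1.natAbs + (s (k+1) - s k).2.natAbs = 1 then
          (a + (((Finset.range k).filter (fun j => s j = s k ∧ s (j+1) = s (k+1))).card : ℝ)) /
          (4 * a + (((Finset.range k).filter (fun j => s j = s k)).card : ℝ))
        else 0))
     else 0) (N n : ℕ) (hN : 1 ≤ N) :
    ENNReal.ofReal (∑ m ∈ Finset.range (n + 1), ∑ l ∈ exitS (ball N) m, P (wt a 0) l) ≤
      μ {ω | ∃ n, N ≤ (X n ω).1.natAbs + (X n ω).2.natAbs ∧
        ∀ k, 0 < k → k ≤ n → X k ω ≠ 0} := by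
  classical
  have hexit : ∀ m, ∀ l ∈ exitS (ball N) m, l.length = m ∧ Exit (ball N) l := by
    intro m l hl
    rw [exitS, mem_filter] at hl
    exact ⟨length_words hl.1, hl.2⟩
  set S : Finset (List (Fin 4)) := (Finset.range (n + 1)).biUnion (fun m => exitS (ball N) m) with hS
  have hSexit : ∀ l ∈ S, Exit (ball N) l := by
    intro l hl
    rw [hS, mem_biUnion] at hl
    obtain ⟨m, -, hm⟩ := hl
    exact (hexit m l hm).2
  let E : List (Fin 4) → Set Ω := fun l => {ω | Agree l (fun k => X k ω)}
  have hE : ∀ l, μ (E l) = ENNReal.ofReal (P (wt a 0) l) := by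
    intro l
    have h1 := hlaw l.length (fun k => pos (l.drop (l.length - k)))
    have h2 := (agree_path l).zero
    rw [if_pos h2, prod_eq (agree_path l)] at h1
    exact h1
  have hEm : ∀ l, MeasurableSet (E l) := by
    intro l
    have h1 : E l = ⋂ k ∈ Finset.range (l.length + 1), X k ⁻¹' {pos (l.drop (l.length - k))} := by
      ext ω
      simp only [E, Agree, Set.mem_ofPred_eq, Set.mem_iInter, mem_range, Set.mem_preimage,
        Set.mem_singleton_iff, Nat.lt_succ_iff]
    rw [h1]
    exact Finset.measurableSet_biInter _ fun k _ => hX k (measurableSet_singleton _)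
  have hdisj : Set.PairwiseDisjoint (S : Set (List (Fin 4))) E := by
    have key : ∀ l ∈ S, ∀ l' ∈ S, l.length ≤ l'.length → ∀ ω, ω ∈ E l → ω ∈ E l' → l = l' := by
      intro l hl l' hl' hle ω h1 h2
      have h1' : Agree l (fun k => X k ω) := h1
      have h2' : Agree l' (fun k => X k ω) := h2
      rcases hle.eq_or_lt with h3 | h3
      · exact agree_inj h1' h2' h3
      · exfalso
        have h4 := mem_src h2' h3
        have h5 := (hSexit l' hl').2.2 _ h4
        have h6 : X l.length ω = pos l := h1'.last
        have h7 : X l.length ω ∈ ball N := h5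
        rw [h6] at h7
        exact (hSexit l hl).1 h7
    intro l hl l' hl' hne
    rw [Function.onFun, Set.disjoint_left]
    intro ω h1 h2
    rcases le_total l.length l'.length with h | h
    · exact hne (key l hl l' hl' h ω h1 h2)
    · exact hne (key l' hl' l hl h ω h2 h1).symm
  have hsub : (⋃ l ∈ S, E l) ⊆ {ω | ∃ n, N ≤ (X n ω).1.natAbs + (X n ω).2.natAbs ∧
        ∀ k, 0 < k → k ≤ n → X k ω ≠ 0} := by
    intro ω hω
    simp only [Set.mem_iUnion] at hω
    obtain ⟨l, hl, hω⟩ := hω
    have h1 : Agree l (fun k => X k ω) := hω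
    obtain ⟨h2, h3, h4⟩ := hSexit l hl
    have hlast : X l.length ω = pos l := h1.last
    refine ⟨l.length, ?_, ?_⟩
    · rw [hlast]
      rw [mem_ball] at h2
      omega
    · intro k hk0 hk h0
      rcases hk.eq_or_lt with h5 | h5
      · rw [h5, hlast] at h0
        apply h2
        rw [h0, mem_ball]
        simp
        omega
      · have h6 := count_src h1 0
        rw [h3, Finset.card_eq_one] at h6
        obtain ⟨b, hb⟩ := h6
        have h7 : k ∈ ({b} : Finset ℕ) := by
          rw [← hb, mem_filter, mem_range]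
          exact ⟨h5, h0⟩
        have h8 : 0 ∈ ({b} : Finset ℕ) := by
          rw [← hb, mem_filter, mem_range]
          exact ⟨by omega, h1.zero⟩
        rw [mem_singleton] at h7 h8
        omega
  have hsum : ∑ m ∈ Finset.range (n + 1), ∑ l ∈ exitS (ball N) m, P (wt a 0) l =
      ∑ l ∈ S, P (wt a 0) l := by
    rw [hS, Finset.sum_biUnion]
    intro m _ m' _ hne
    rw [Function.onFun, Finset.disjoint_left]
    intro l h1 h2
    exact hne ((hexit m l h1).1.symm.trans (hexit m' l h2).1)
  rw [hsum, ENNReal.ofReal_sum_of_nonneg fun l _ => P_nonneg ha l]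
  calc ∑ l ∈ S, ENNReal.ofReal (P (wt a 0) l) = ∑ l ∈ S, μ (E l) :=
        Finset.sum_congr rfl fun l _ => (hE l).symm
    _ = μ (⋃ l ∈ S, E l) := (MeasureTheory.measure_biUnion_finset hdisj fun l _ => hEm l).symm
    _ ≤ _ := MeasureTheory.measure_mono hsub

end Pool.Agent.DRW
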