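import Pool.Agent.DRW.Final
import Pool.Agent.DRW.Meas

/-!
# The escape probability of the directed-edge reinforced random walk on the square lattice

For every initial weight `a > 0` there is `c > 0` such that the walk reaches distance `N` before it
returns to the origin with probability at least
`c / sqrt ((1 + log N) (1 + log (1 + log N)))`, for all `N ≥ 1`.
-/

namespace Pool.Agent.DRW.EscapeProbability

open Pool.Agent.DRW

theorem result (a : ℝ) (ha : 0 < a) : ∃ c : ℝ, 0 < c ∧ ∀ N : ℕ, 1 ≤ N →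
    ∀ (Ω : Type) [MeasurableSpace Ω] (μ : MeasureTheory.Measure Ω)
      [MeasureTheory.IsProbabilityMeasure μ] (X : ℕ → Ω → ℤ × ℤ),
    (∀ n, Measurable (X n)) →
    (∀ (n : ℕ) (s : ℕ → ℤ × ℤ), μ {ω | ∀ k ≤ n, X k ω = s k} =
       if s 0 = 0 then
         ENNReal.ofReal (∏ k ∈ Finset.range n,
          (if (s (k+1) - s k).1.natAbs + (s (k+1) - s k).2.natAbs = 1 then
            (a + (((Finset.range k).filter (fun j => s j = s k ∧ s (j+1) = s (k+1))).card : ℝ)) /
            (4 * a + (((Finset.range k).filter (fun j => s j = s k)).card : ℝ))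
          else 0))
       else 0) →
    ENNReal.ofReal (c / Real.sqrt ((1 + Real.log N) * (1 + Real.log (1 + Real.log N)))) ≤
      μ {ω | ∃ n, N ≤ (X n ω).1.natAbs + (X n ω).2.natAbs ∧
        ∀ k, 0 < k → k ≤ n → X k ω ≠ 0} := by
  obtain ⟨c, hc, h⟩ := escape_sum ha
  refine ⟨c, hc, fun N hN Ω _ μ _ X hX hlaw => ?_⟩
  obtain ⟨n, hn⟩ := h N hN
  exact (ENNReal.ofReal_le_ofReal hn).trans (measure_exit ha μ X hX hlaw N n hN)

end Pool.Agent.DRW.EscapeProbability
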