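import Pool.Agent.DRW.Defs

/-!
# The explicit flow of the quadrant

Antisymmetry, divergence, a bound for the values and the energy in a ball.
-/

namespace Pool.Agent.DRW

theorem flow_right (x : ℤ × ℤ) : flow x 0 =
    if 0 ≤ x.1 ∧ 0 ≤ x.2 then ((x.1 : ℝ) + 1) / (((x.1 : ℝ) + x.2 + 1) * ((x.1 : ℝ) + x.2 + 2))
    else 0 := by
  simp [flow]

theorem flow_up (x : ℤ × ℤ) : flow x 1 =
    if 0 ≤ x.1 ∧ 0 ≤ x.2 then ((x.2 : ℝ) + 1) / (((x.1 : ℝ) + x.2 + 1) * ((x.1 : ℝ) + x.2 + 2))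
    else 0 := by
  simp [flow]

theorem flow_left (x : ℤ × ℤ) : flow x 2 =
    if 0 ≤ x.1 ∧ 0 ≤ x.2 then -(x.1 : ℝ) / (((x.1 : ℝ) + x.2) * ((x.1 : ℝ) + x.2 + 1))
    else 0 := by
  simp [flow]

theorem flow_down (x : ℤ × ℤ) : flow x 3 =
    if 0 ≤ x.1 ∧ 0 ≤ x.2 then -(x.2 : ℝ) / (((x.1 : ℝ) + x.2) * ((x.1 : ℝ) + x.2 + 1))
    else 0 := by
  simp [flow]

theorem flow_anti_right (x : ℤ × ℤ) : flow (x + (1, 0)) 2 = - flow x 0 := by
  obtain ⟨a, b⟩ := x
  rw [flow_right, flow_left]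
  simp only [Prod.mk_add_mk, add_zero]
  by_cases hb : 0 ≤ b
  · by_cases ha : 0 ≤ a
    · rw [if_pos ⟨by omega, hb⟩, if_pos ⟨ha, hb⟩]
      push_cast
      rw [show (a : ℝ) + 1 + b = a + b + 1 by ring, show (a : ℝ) + b + 1 + 1 = a + b + 2 by ring,
        neg_div]
    · rw [if_neg (c := 0 ≤ a ∧ 0 ≤ b) (fun h => ha h.1)]
      by_cases h1 : 0 ≤ a + 1
      · have : a = -1 := by omega
        subst this
        rw [if_pos ⟨h1, hb⟩]
        simp
      · rw [if_neg (fun h => h1 h.1)]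
        simp
  · rw [if_neg (fun h => hb h.2), if_neg (fun h => hb h.2)]
    simp

theorem flow_anti_up (x : ℤ × ℤ) : flow (x + (0, 1)) 3 = - flow x 1 := by
  obtain ⟨a, b⟩ := x
  rw [flow_up, flow_down]
  simp only [Prod.mk_add_mk, add_zero]
  by_cases ha : 0 ≤ a
  · by_cases hb : 0 ≤ b
    · rw [if_pos ⟨ha, by omega⟩, if_pos ⟨ha, hb⟩]
      push_cast
      rw [show (a : ℝ) + (b + 1) = a + b + 1 by ring, show (a : ℝ) + b + 1 + 1 = a + b + 2 by ring,
        neg_div]
    · rw [if_neg (c := 0 ≤ a ∧ 0 ≤ b) (fun h => hb h.2)]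
      by_cases h1 : 0 ≤ b + 1
      · have : b = -1 := by omega
        subst this
        rw [if_pos ⟨ha, h1⟩]
        simp
      · rw [if_neg (fun h => h1 h.2)]
        simp
  · rw [if_neg (fun h => ha h.1), if_neg (fun h => ha h.1)]
    simp

theorem flow_anti (x : ℤ × ℤ) (i : Fin 4) : flow (x + d i) (opp i) = - flow x i := by
  fin_cases i
  · exact flow_anti_right x
  · exact flow_anti_up x
  · have h := flow_anti_right (x + (-1, 0))
    have e : x + (-1, 0) + (1, 0) = x := by ext <;> simp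
    rw [e] at h
    show flow (x + (-1, 0)) 0 = - flow x 2
    rw [h, neg_neg]
  · have h := flow_anti_up (x + (0, -1))
    have e : x + (0, -1) + (0, 1) = x := by ext <;> simp
    rw [e] at h
    show flow (x + (0, -1)) 1 = - flow x 3
    rw [h, neg_neg]

theorem flow_div (x : ℤ × ℤ) : ∑ i, flow x i = if x = 0 then 1 else 0 := by
  obtain ⟨a, b⟩ := x
  rw [Fin.sum_univ_four, flow_right, flow_up, flow_left, flow_down]
  by_cases h : 0 ≤ a ∧ 0 ≤ b
  · simp only [if_pos h]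
    have ha : (0 : ℝ) ≤ a := by exact_mod_cast h.1
    have hb : (0 : ℝ) ≤ b := by exact_mod_cast h.2
    by_cases h0 : ((a, b) : ℤ × ℤ) = 0
    · rw [if_pos h0]
      have h1 : a = 0 := congrArg Prod.fst h0
      have h2 : b = 0 := congrArg Prod.snd h0
      subst h1 h2
      norm_num
    · rw [if_neg h0]
      have hab : 0 < a + b := by
        rcases lt_or_eq_of_le (add_nonneg h.1 h.2) with h1 | h1
        · exact h1
        · exfalso
          apply h0
          ext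
          · show a = 0
            omega
          · show b = 0
            omega
      have hk : (0 : ℝ) < a + b := by exact_mod_cast hab
      have hk1 : (a : ℝ) + b ≠ 0 := hk.ne'
      have hk2 : (a : ℝ) + b + 1 ≠ 0 := by positivity
      have hk3 : (a : ℝ) + b + 2 ≠ 0 := by positivity
      field_simp
      ring
  · simp only [if_neg h]
    rw [if_neg]
    · simp
    · intro h0
      apply h
      have h1 : a = 0 := congrArg Prod.fst h0
      have h2 : b = 0 := congrArg Prod.snd h0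
      omega

/-- Values of the flow in terms of the distance to the origin. -/
theorem frac_out {a b : ℝ} (ha : 0 ≤ a) (hb : 0 ≤ b) :
    0 ≤ (a + 1) / ((a + b + 1) * (a + b + 2)) ∧
      (a + 1) / ((a + b + 1) * (a + b + 2)) ≤ 1 / (a + b + 2) := by
  refine ⟨by positivity, ?_⟩
  rw [div_le_div_iff₀ (by positivity) (by positivity)]
  nlinarith [mul_nonneg hb (by positivity : 0 ≤ a + b + 2)]

theorem frac_in {a b : ℝ} (ha : 0 ≤ a) (hb : 0 ≤ b) :
    0 ≤ a / ((a + b) * (a + b + 1)) ∧ a / ((a + b) * (a + b + 1)) ≤ 1 / (a + b + 1) := by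
  refine ⟨by positivity, ?_⟩
  rcases eq_or_lt_of_le (add_nonneg ha hb) with h | h
  · rw [← h]
    simp
  · rw [div_le_div_iff₀ (by positivity) (by positivity)]
    nlinarith [mul_nonneg hb (by positivity : 0 ≤ a + b + 1)]

/-- The incoming part is at most one half. -/
theorem frac_in_half {a b : ℤ} (ha : 0 ≤ a) (hb : 0 ≤ b) :
    (a : ℝ) / (((a : ℝ) + b) * ((a : ℝ) + b + 1)) ≤ 1 / 2 := by
  have ha' : (0 : ℝ) ≤ a := by exact_mod_cast ha
  have hb' : (0 : ℝ) ≤ b := by exact_mod_cast hb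
  rcases eq_or_lt_of_le ha with h | h
  · rw [← h]
    simp
  · have h1 : (1 : ℝ) ≤ a := by exact_mod_cast h
    refine (frac_in ha' hb').2.trans ?_
    exact one_div_le_one_div_of_le (by norm_num) (by linarith)

theorem flow_abs (x : ℤ × ℤ) (i : Fin 4) : |flow x i| ≤ 1 / 2 := by
  obtain ⟨a, b⟩ := x
  by_cases h : 0 ≤ a ∧ 0 ≤ b
  · have ha : (0 : ℝ) ≤ a := by exact_mod_cast h.1
    have hb : (0 : ℝ) ≤ b := by exact_mod_cast h.2
    have hh : 1 / ((a : ℝ) + b + 2) ≤ 1 / 2 :=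
      one_div_le_one_div_of_le (by norm_num) (by linarith)
    fin_cases i
    · show |flow (a, b) 0| ≤ 1 / 2
      rw [flow_right, if_pos h, abs_of_nonneg (frac_out ha hb).1]
      exact (frac_out ha hb).2.trans hh
    · show |flow (a, b) 1| ≤ 1 / 2
      have e := frac_out hb ha
      rw [add_comm (b : ℝ) a] at e
      rw [flow_up, if_pos h, abs_of_nonneg e.1]
      exact e.2.trans hh
    · show |flow (a, b) 2| ≤ 1 / 2
      rw [flow_left, if_pos h, neg_div, abs_neg, abs_of_nonneg (frac_in ha hb).1]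
      exact frac_in_half h.1 h.2
    · show |flow (a, b) 3| ≤ 1 / 2
      have e := frac_in hb ha
      have e2 := frac_in_half h.2 h.1
      rw [add_comm (b : ℝ) a] at e e2
      rw [flow_down, if_pos h, neg_div, abs_neg, abs_of_nonneg e.1]
      exact e2
  · have : flow (a, b) i = 0 := by
      unfold flow
      rw [if_neg h]
    rw [this]
    simp

/-- The energy density at a point of the quadrant. -/
theorem flow_sq (x : ℤ × ℤ) :
    ∑ i, flow x i ^ 2 ≤ if 0 ≤ x.1 ∧ 0 ≤ x.2 then 2 / ((x.1 : ℝ) + x.2 + 1) ^ 2 else 0 := by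
  obtain ⟨a, b⟩ := x
  rw [Fin.sum_univ_four, flow_right, flow_up, flow_left, flow_down]
  by_cases h : 0 ≤ a ∧ 0 ≤ b
  · simp only [if_pos h]
    have ha : (0 : ℝ) ≤ a := by exact_mod_cast h.1
    have hb : (0 : ℝ) ≤ b := by exact_mod_cast h.2
    have h1 : (((a : ℝ) + 1) / (((a : ℝ) + b + 1) * ((a : ℝ) + b + 2))) ^ 2 +
        (((b : ℝ) + 1) / (((a : ℝ) + b + 1) * ((a : ℝ) + b + 2))) ^ 2 ≤
        1 / ((a : ℝ) + b + 1) ^ 2 := by
      rw [div_pow, div_pow, ← add_div, div_le_div_iff₀ (by positivity) (by positivity), mul_pow]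
      have : ((a : ℝ) + 1) ^ 2 + ((b : ℝ) + 1) ^ 2 ≤ ((a : ℝ) + b + 2) ^ 2 := by
        nlinarith [mul_nonneg ha hb]
      nlinarith [mul_le_mul_of_nonneg_left this (sq_nonneg ((a : ℝ) + b + 1))]
    have h2 : (-(a : ℝ) / (((a : ℝ) + b) * ((a : ℝ) + b + 1))) ^ 2 +
        (-(b : ℝ) / (((a : ℝ) + b) * ((a : ℝ) + b + 1))) ^ 2 ≤ 1 / ((a : ℝ) + b + 1) ^ 2 := by
      rcases eq_or_lt_of_le (add_nonneg ha hb) with h0 | h0
      · have ha0 : (a : ℝ) = 0 := by linarith
        have hb0 : (b : ℝ) = 0 := by linarith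
        rw [ha0, hb0]
        norm_num
      · rw [div_pow, div_pow, ← add_div, div_le_div_iff₀ (by positivity) (by positivity), mul_pow]
        have : (-(a : ℝ)) ^ 2 + (-(b : ℝ)) ^ 2 ≤ ((a : ℝ) + b) ^ 2 := by
          nlinarith [mul_nonneg ha hb]
        nlinarith [mul_le_mul_of_nonneg_left this (sq_nonneg ((a : ℝ) + b + 1))]
    have h3 : 2 / ((a : ℝ) + b + 1) ^ 2 = 1 / ((a : ℝ) + b + 1) ^ 2 + 1 / ((a : ℝ) + b + 1) ^ 2 := by
      ring
    rw [h3]
    linarith
  · simp only [if_neg h]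
    simp

theorem flow_energy {N : ℕ} (hN : 1 ≤ N) :
    ∑ x ∈ ball N, ∑ i, flow x i ^ 2 ≤ 2 * (1 + Real.log N) := by
  have _ := hN
  set S : Finset (ℤ × ℤ) := (ball N).filter (fun x => 0 ≤ x.1 ∧ 0 ≤ x.2) with hS
  have h1 : ∑ x ∈ ball N, ∑ i, flow x i ^ 2 ≤ ∑ x ∈ S, 2 / ((x.1 : ℝ) + x.2 + 1) ^ 2 := by
    rw [hS, Finset.sum_filter]
    exact Finset.sum_le_sum fun x _ => flow_sq x
  have hmem : ∀ x ∈ S, 0 ≤ x.1 ∧ 0 ≤ x.2 ∧ x.1.natAbs + x.2.natAbs < N := by
    intro x hx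
    rw [hS, Finset.mem_filter, ball, Finset.mem_filter] at hx
    exact ⟨hx.2.1, hx.2.2, hx.1.2⟩
  have hmaps : ∀ x ∈ S, x.1.natAbs + x.2.natAbs ∈ Finset.range N := by
    intro x hx
    exact Finset.mem_range.mpr (hmem x hx).2.2
  have h2 := Finset.sum_fiberwise_of_maps_to hmaps
    (fun x : ℤ × ℤ => (2 : ℝ) / ((x.1 : ℝ) + x.2 + 1) ^ 2)
  rw [← h2] at h1
  refine h1.trans ?_
  have h3 : ∀ k ∈ Finset.range N, ∑ x ∈ S with x.1.natAbs + x.2.natAbs = k,
      (2 : ℝ) / ((x.1 : ℝ) + x.2 + 1) ^ 2 ≤ 2 * ((k : ℝ) + 1)⁻¹ := by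
    intro k _
    have e1 : ∑ x ∈ S with x.1.natAbs + x.2.natAbs = k, (2 : ℝ) / ((x.1 : ℝ) + x.2 + 1) ^ 2 =
        ∑ x ∈ S with x.1.natAbs + x.2.natAbs = k, (2 : ℝ) / ((k : ℝ) + 1) ^ 2 := by
      apply Finset.sum_congr rfl
      intro x hx
      rw [Finset.mem_filter] at hx
      have h4 := hmem x hx.1
      have h5 : x.1 + x.2 = (k : ℤ) := by omega
      have h6 : (x.1 : ℝ) + x.2 = (k : ℝ) := by exact_mod_cast h5
      rw [h6]
    rw [e1, Finset.sum_const, nsmul_eq_mul]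
    have hcard : (S.filter (fun x => x.1.natAbs + x.2.natAbs = k)).card ≤ k + 1 := by
      have hinj : Set.InjOn (fun x : ℤ × ℤ => x.1.natAbs)
          (S.filter (fun x => x.1.natAbs + x.2.natAbs = k)) := by
        intro x hx y hy hxy
        rw [Finset.mem_coe, Finset.mem_filter] at hx hy
        have hx1 := hmem x hx.1
        have hy1 := hmem y hy.1
        have hx2 := hx.2
        have hy2 := hy.2
        simp only at hxy
        ext <;> omega
      have hm : Set.MapsTo (fun x : ℤ × ℤ => x.1.natAbs)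
          (S.filter (fun x => x.1.natAbs + x.2.natAbs = k)) (Finset.range (k + 1)) := by
        intro x hx
        rw [Finset.mem_coe, Finset.mem_filter] at hx
        rw [Finset.mem_coe, Finset.mem_range]
        show x.1.natAbs < k + 1
        omega
      have := Finset.card_le_card_of_injOn _ hm hinj
      rwa [Finset.card_range] at this
    have hcard' : ((S.filter (fun x => x.1.natAbs + x.2.natAbs = k)).card : ℝ) ≤ (k : ℝ) + 1 := by
      exact_mod_cast hcard
    have hk : (0 : ℝ) < (k : ℝ) + 1 := by positivity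
    calc ((S.filter (fun x => x.1.natAbs + x.2.natAbs = k)).card : ℝ) * (2 / ((k : ℝ) + 1) ^ 2)
        ≤ ((k : ℝ) + 1) * (2 / ((k : ℝ) + 1) ^ 2) :=
          mul_le_mul_of_nonneg_right hcard' (by positivity)
      _ = 2 * ((k : ℝ) + 1)⁻¹ := by field_simp
  refine (Finset.sum_le_sum h3).trans ?_
  rw [← Finset.mul_sum]
  have h4 := harmonic_le_one_add_log N
  have h5 : ((harmonic N : ℚ) : ℝ) = ∑ k ∈ Finset.range N, ((k : ℝ) + 1)⁻¹ := by
    unfold harmonic
    push_cast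
    rfl
  rw [h5] at h4
  linarith

end Pool.Agent.DRW
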