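import Pool.Agent.DRW.Defs

/-! # Module Pow: comparison of the path weights for the weights `a`, `a + g * flow` and
`a + r * g * flow`. -/

namespace Pool.Agent.DRW

/-- The partial sums of `1 / (a + k) ^ 2`. -/
noncomputable def pwG (a : ℝ) (n : ℕ) : ℝ := ∑ k ∈ Finset.range n, 1 / (a + k) ^ 2

theorem pwG_succ_le {a : ℝ} (ha : 0 < a) (n : ℕ) :
    pwG a (n + 1) ≤ 1 / a ^ 2 + 1 / a - 1 / (a + n) := by
  induction n with
  | zero => simp [pwG]
  | succ n ih =>
    have h1 : pwG a (n + 1 + 1) = pwG a (n + 1) + 1 / (a + ((n + 1 : ℕ) : ℝ)) ^ 2 := by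
      unfold pwG
      rw [Finset.sum_range_succ]
    have hn : (0 : ℝ) ≤ n := Nat.cast_nonneg n
    have hp : 0 < a + n := by linarith
    have hp1 : 0 < a + n + 1 := by linarith
    have h2 : 1 / (a + ((n + 1 : ℕ) : ℝ)) ^ 2 ≤ 1 / (a + n) - 1 / (a + ((n + 1 : ℕ) : ℝ)) := by
      push_cast
      rw [← add_assoc, div_sub_div _ _ hp.ne' hp1.ne', div_le_div_iff₀ (by positivity) (by positivity)]
      nlinarith
    rw [h1]
    linarith

theorem pwG_le {a : ℝ} (ha : 0 < a) (n : ℕ) : pwG a n ≤ 1 / a ^ 2 + 1 / a := by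
  cases n with
  | zero =>
    unfold pwG
    rw [Finset.sum_range_zero]
    positivity
  | succ n =>
    have h := pwG_succ_le ha n
    have hn : (0 : ℝ) ≤ n := Nat.cast_nonneg n
    have hp : 0 < 1 / (a + n) := by positivity
    linarith

/-- The quadratic error along a path. -/
noncomputable def pwQ (a : ℝ) : List (Fin 4) → ℝ
  | [] => 0
  | i :: l => pwQ a l + flow (pos l) i ^ 2 / (a + ((tr l).count (pos l, i) : ℝ)) ^ 2

theorem pwQ_eq {a : ℝ} {N : ℕ} : ∀ l : List (Fin 4), (∀ v ∈ src l, v ∈ ball N) →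
    pwQ a l = ∑ x ∈ ball N, ∑ i, flow x i ^ 2 * pwG a ((tr l).count (x, i))
  | [], _ => by simp [pwQ, pwG, trF]
  | i :: l, hl => by
    have hl' : ∀ v ∈ src l, v ∈ ball N := by
      intro v hv
      apply hl
      simp only [src, srcF, trF, List.map_cons, List.mem_cons] at hv ⊢
      exact Or.inr hv
    have hp : pos l ∈ ball N := by
      apply hl
      simp [srcF, trF]
    have ih := pwQ_eq (a := a) l hl'
    have hstep : ∀ x : ℤ × ℤ, ∀ j : Fin 4,
        flow x j ^ 2 * pwG a ((tr (i :: l)).count (x, j)) =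
          flow x j ^ 2 * pwG a ((tr l).count (x, j)) +
          (if (x, j) = (pos l, i) then
            flow (pos l) i ^ 2 / (a + ((tr l).count (pos l, i) : ℝ)) ^ 2 else 0) := by
      intro x j
      have hc : (tr (i :: l)).count (x, j) =
          (tr l).count (x, j) + if (pos l, i) = (x, j) then 1 else 0 := by
        show ((pos l, i) :: tr l).count (x, j) = _
        rw [List.count_cons]
        congr 1
        by_cases h : (pos l, i) = (x, j)
        · simp [h]
        · simp [h]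
      rw [hc]
      by_cases h : (x, j) = (pos l, i)
      · have h' : (pos l, i) = (x, j) := h.symm
        rw [if_pos h', if_pos h]
        obtain ⟨hx, hj⟩ := Prod.mk.inj h
        subst hx hj
        have : pwG a ((tr l).count (pos l, j) + 1) = pwG a ((tr l).count (pos l, j)) +
            1 / (a + ((tr l).count (pos l, j) : ℝ)) ^ 2 := by
          unfold pwG
          rw [Finset.sum_range_succ]
        rw [this]
        ring
      · have h' : ¬ (pos l, i) = (x, j) := fun e => h e.symm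
        rw [if_neg h', if_neg h]
        simp
    have hsum : ∑ x ∈ ball N, ∑ j, (if (x, j) = (pos l, i) then
            flow (pos l) i ^ 2 / (a + ((tr l).count (pos l, i) : ℝ)) ^ 2 else 0) =
            flow (pos l) i ^ 2 / (a + ((tr l).count (pos l, i) : ℝ)) ^ 2 := by
      rw [Finset.sum_eq_single (pos l)]
      · rw [Finset.sum_eq_single i]
        · simp
        · intro j _ hj
          rw [if_neg]
          intro e
          exact hj (Prod.mk.inj e).2
        · intro h
          exact absurd (Finset.mem_univ _) h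
      · intro x _ hx
        apply Finset.sum_eq_zero
        intro j _
        rw [if_neg]
        intro e
        exact hx (Prod.mk.inj e).1
      · intro h
        exact absurd hp h
    have : ∑ x ∈ ball N, ∑ j, flow x j ^ 2 * pwG a ((tr (i :: l)).count (x, j)) =
        ∑ x ∈ ball N, ∑ j, flow x j ^ 2 * pwG a ((tr l).count (x, j)) +
        ∑ x ∈ ball N, ∑ j, (if (x, j) = (pos l, i) then
            flow (pos l) i ^ 2 / (a + ((tr l).count (pos l, i) : ℝ)) ^ 2 else 0) := by
      rw [← Finset.sum_add_distrib]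
      apply Finset.sum_congr rfl
      intro x _
      rw [← Finset.sum_add_distrib]
      apply Finset.sum_congr rfl
      intro j _
      exact hstep x j
    rw [this, hsum, ← ih]
    rfl

theorem pwQ_le {a : ℝ} (ha : 0 < a) {N : ℕ} {l : List (Fin 4)} (hl : ∀ v ∈ src l, v ∈ ball N) :
    pwQ a l ≤ (1 / a ^ 2 + 1 / a) * ∑ x ∈ ball N, ∑ i, flow x i ^ 2 := by
  rw [pwQ_eq l hl, Finset.mul_sum]
  apply Finset.sum_le_sum
  intro x _
  rw [Finset.mul_sum]
  apply Finset.sum_le_sum
  intro i _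
  rw [mul_comm]
  exact mul_le_mul_of_nonneg_right (pwG_le ha _) (sq_nonneg _)

theorem pw_exp_le {s : ℝ} (h1 : -(1 / 2) ≤ s) (h2 : s ≤ 1 / 2) :
    Real.exp s ≤ (1 + s) * Real.exp (s ^ 2) := by
  have hpos : 0 < 1 + s := by linarith
  have key : s - s ^ 2 ≤ Real.log (1 + s) := by
    rcases le_total 0 s with hs | hs
    · refine le_trans ?_ (Real.le_log_one_add_of_nonneg hs)
      rw [le_div_iff₀ (by linarith)]
      nlinarith [pow_nonneg hs 3, sq_nonneg s]
    · rw [Real.le_log_iff_exp_le hpos]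
      have hu0 : 0 ≤ -s + s ^ 2 := by nlinarith [sq_nonneg s]
      have h3 := Real.quadratic_le_exp_of_nonneg hu0
      have h4 : 1 ≤ Real.exp (-s + s ^ 2) * (1 + s) := by
        refine le_trans ?_ (mul_le_mul_of_nonneg_right h3 hpos.le)
        have h5 : 0 ≤ s ^ 2 * (1 + s - s ^ 2 + s ^ 3) := by
          apply mul_nonneg (sq_nonneg s)
          nlinarith [mul_nonneg (by linarith : (0 : ℝ) ≤ s + 1 / 2) (by linarith : (0 : ℝ) ≤ -s),
            mul_nonneg (mul_nonneg (by linarith : (0 : ℝ) ≤ s + 1 / 2)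
              (by linarith : (0 : ℝ) ≤ -s)) (by linarith : (0 : ℝ) ≤ -s)]
        nlinarith
      have h6 : Real.exp (s - s ^ 2) = (Real.exp (-s + s ^ 2))⁻¹ := by
        rw [← Real.exp_neg]
        congr 1
        ring
      rw [h6, inv_eq_one_div, div_le_iff₀ (Real.exp_pos _)]
      linarith
  calc Real.exp s = Real.exp (s - s ^ 2) * Real.exp (s ^ 2) := by
        rw [← Real.exp_add]; congr 1; ring
    _ ≤ Real.exp (Real.log (1 + s)) * Real.exp (s ^ 2) := by
        apply mul_le_mul_of_nonneg_right _ (Real.exp_pos _).le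
        exact Real.exp_le_exp.mpr key
    _ = (1 + s) * Real.exp (s ^ 2) := by rw [Real.exp_log hpos]

/-- Numerators. -/
theorem pw_num {A u : ℝ} (hA : 0 < A) {r : ℕ} (h1 : |r * u| ≤ A / 2) (hr : 1 ≤ r) :
    (A + u) ^ r ≤ A ^ (r - 1) * (A + r * u) * Real.exp ((r * u / A) ^ 2) := by
  have hr0 : (1 : ℝ) ≤ r := by exact_mod_cast hr
  have hru : |u| ≤ A / 2 := by
    rw [abs_mul, abs_of_nonneg (by linarith : (0 : ℝ) ≤ r)] at h1
    nlinarith [abs_nonneg u]
  have hs1 : -(1 / 2) ≤ r * u / A := by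
    rw [le_div_iff₀ hA]
    have := (abs_le.mp h1).1
    linarith
  have hs2 : r * u / A ≤ 1 / 2 := by
    rw [div_le_iff₀ hA]
    have := (abs_le.mp h1).2
    linarith
  have h3 : (1 + u / A) ^ r ≤ Real.exp (r * u / A) := by
    have h4 : 1 + u / A ≤ Real.exp (u / A) := by
      have := Real.add_one_le_exp (u / A)
      linarith
    have h5 : 0 ≤ 1 + u / A := by
      have := (abs_le.mp hru).1
      have : -(1 / 2) ≤ u / A := by
        rw [le_div_iff₀ hA]
        linarith
      linarith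
    calc (1 + u / A) ^ r ≤ Real.exp (u / A) ^ r := pow_le_pow_left₀ h5 h4 r
      _ = Real.exp (r * u / A) := by
        rw [← Real.exp_nat_mul]
        congr 1
        ring
  have h6 := h3.trans (pw_exp_le hs1 hs2)
  have hAr : A ^ r = A ^ (r - 1) * A := by
    rw [← pow_succ]
    congr 1
    omega
  calc (A + u) ^ r = A ^ r * (1 + u / A) ^ r := by
        rw [← mul_pow]
        congr 1
        field_simp
    _ ≤ A ^ r * ((1 + r * u / A) * Real.exp ((r * u / A) ^ 2)) :=
        mul_le_mul_of_nonneg_left h6 (by positivity)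
    _ = A ^ (r - 1) * (A + r * u) * Real.exp ((r * u / A) ^ 2) := by
        rw [hAr]
        have : A * (1 + r * u / A) = A + r * u := by field_simp
        rw [← this]
        ring

/-- Denominators (Bernoulli). -/
theorem pw_den {D v : ℝ} (hD : 0 < D) (hv : 0 ≤ v) {r : ℕ} (hr : 1 ≤ r) :
    D ^ (r - 1) * (D + r * v) ≤ (D + v) ^ r := by
  have h1 : 1 + (r : ℝ) * (v / D) ≤ (1 + v / D) ^ r := by
    apply one_add_mul_le_pow
    have : 0 ≤ v / D := by positivity
    linarith
  have hDr : D ^ r = D ^ (r - 1) * D := by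
    rw [← pow_succ]
    congr 1
    omega
  calc D ^ (r - 1) * (D + r * v) = D ^ r * (1 + (r : ℝ) * (v / D)) := by
        rw [hDr]
        have : D * (1 + r * (v / D)) = D + r * v := by field_simp
        rw [← this]
        ring
    _ ≤ D ^ r * (1 + v / D) ^ r := mul_le_mul_of_nonneg_left h1 (by positivity)
    _ = (D + v) ^ r := by
        rw [← mul_pow]
        congr 1
        field_simp

theorem pw_W (hdiv : ∀ x, ∑ i, flow x i = if x = 0 then 1 else 0) (a s : ℝ) (x : ℤ × ℤ) :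
    W (wt a s) x = 4 * a + s * (if x = 0 then 1 else 0) := by
  unfold W wt
  rw [Finset.sum_add_distrib, ← Finset.mul_sum, hdiv x]
  simp

theorem pw_step {a g : ℝ} (ha : 0 < a) (hg : 0 ≤ g) {r : ℕ} (hr : 1 ≤ r) (hgr : r * g ≤ a)
    {f δ n m : ℝ} (hf : |f| ≤ 1 / 2) (hδ : 0 ≤ δ) (hn : 0 ≤ n) (hm : 0 ≤ m) :
    ((a + g * f + n) / (4 * a + g * δ + m)) ^ r ≤
      ((a + n) / (4 * a + m)) ^ (r - 1) *
        ((a + r * g * f + n) / (4 * a + r * g * δ + m)) *
        Real.exp ((r : ℝ) ^ 2 * g ^ 2 * (f ^ 2 / (a + n) ^ 2)) := by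
  have hA : 0 < a + n := by linarith
  have hD : 0 < 4 * a + m := by linarith
  have hr0 : (0 : ℝ) ≤ r := Nat.cast_nonneg r
  have h1 : |r * (g * f)| ≤ (a + n) / 2 := by
    rw [← mul_assoc, abs_mul, abs_of_nonneg (mul_nonneg hr0 hg)]
    calc (r : ℝ) * g * |f| ≤ a * (1 / 2) :=
          mul_le_mul hgr hf (abs_nonneg _) ha.le
      _ ≤ (a + n) / 2 := by linarith
  have hnum := pw_num hA h1 hr
  have hden := pw_den hD (mul_nonneg hg hδ) hr
  have hN3 : 0 ≤ a + n + r * (g * f) := by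
    have := (abs_le.mp h1).1
    linarith
  have hD2 : 0 < 4 * a + m + r * (g * δ) := by positivity
  have hE : (r * (g * f) / (a + n)) ^ 2 = (r : ℝ) ^ 2 * g ^ 2 * (f ^ 2 / (a + n) ^ 2) := by
    rw [div_pow]
    ring
  have e1 : a + g * f + n = a + n + g * f := by ring
  have e2 : 4 * a + g * δ + m = 4 * a + m + g * δ := by ring
  have e3 : a + r * g * f + n = a + n + r * (g * f) := by ring
  have e4 : 4 * a + r * g * δ + m = 4 * a + m + r * (g * δ) := by ring
  rw [e1, e2, e3, e4, ← hE, div_pow, div_pow]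
  calc (a + n + g * f) ^ r / (4 * a + m + g * δ) ^ r
      ≤ ((a + n) ^ (r - 1) * (a + n + r * (g * f)) * Real.exp ((r * (g * f) / (a + n)) ^ 2)) /
          ((4 * a + m) ^ (r - 1) * (4 * a + m + r * (g * δ))) := by
        apply div_le_div₀ _ hnum _ hden
        · positivity
        · positivity
    _ = _ := by
        have hD' : (4 * a + m) ^ (r - 1) ≠ 0 := by positivity
        field_simp

theorem pw_P_nonneg {w : ℤ × ℤ → Fin 4 → ℝ} (hw : ∀ x i, 0 ≤ w x i) :
    ∀ l : List (Fin 4), 0 ≤ P w l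
  | [] => by simp [P]
  | i :: l => by
    have ih := pw_P_nonneg hw l
    have hW : 0 ≤ W w (pos l) := Finset.sum_nonneg fun j _ => hw _ j
    have := hw (pos l) i
    unfold P
    positivity

theorem pw_wt_nonneg (habs : ∀ x i, |flow x i| ≤ 1 / 2) {a s : ℝ} (hs : 0 ≤ s)
    (hsa : s ≤ a) (x : ℤ × ℤ) (i : Fin 4) : 0 ≤ wt a s x i := by
  unfold wt
  have h1 := (abs_le.mp (habs x i)).1
  nlinarith

theorem pow_compare_Q (hdiv : ∀ x, ∑ i, flow x i = if x = 0 then 1 else 0)
    (habs : ∀ x i, |flow x i| ≤ 1 / 2) {a g : ℝ} (ha : 0 < a) (hg : 0 ≤ g) {r : ℕ}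
    (hr : 1 ≤ r) (hgr : r * g ≤ a) : ∀ l : List (Fin 4),
    P (wt a g) l ^ r ≤ P (wt a 0) l ^ (r - 1) * P (wt a (r * g)) l *
      Real.exp ((r : ℝ) ^ 2 * g ^ 2 * pwQ a l)
  | [] => by simp [P, pwQ]
  | i :: l => by
    have ih := pow_compare_Q hdiv habs ha hg hr hgr l
    have hr0 : (0 : ℝ) ≤ r := Nat.cast_nonneg r
    have hr1 : (1 : ℝ) ≤ r := by exact_mod_cast hr
    have hga : g ≤ a := by nlinarith
    have hrg : 0 ≤ r * g := mul_nonneg hr0 hg
    have hn : (0 : ℝ) ≤ ((tr l).count (pos l, i) : ℝ) := Nat.cast_nonneg _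
    have hm : (0 : ℝ) ≤ ((src l).count (pos l) : ℝ) := Nat.cast_nonneg _
    have hδ : (0 : ℝ) ≤ (if pos l = 0 then 1 else 0) := by split_ifs <;> norm_num
    have hst := pw_step ha hg hr hgr (habs (pos l) i) hδ hn hm
    have hP : ∀ s : ℝ, P (wt a s) (i :: l) = P (wt a s) l *
        ((a + s * flow (pos l) i + ((tr l).count (pos l, i) : ℝ)) /
          (4 * a + s * (if pos l = 0 then 1 else 0) + ((src l).count (pos l) : ℝ))) := by
      intro s
      show P (wt a s) l * ((wt a s (pos l) i + ((tr l).count (pos l, i) : ℝ)) /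
        (W (wt a s) (pos l) + ((src l).count (pos l) : ℝ))) = _
      rw [pw_W hdiv]
      rfl
    have hP0 := hP 0
    have hPg := hP g
    have hPr := hP (r * g)
    have hP1 := pw_P_nonneg (pw_wt_nonneg habs hg hga) l
    have hPr0 := pw_P_nonneg (pw_wt_nonneg habs hrg hgr) l
    have hP00 := pw_P_nonneg (pw_wt_nonneg habs le_rfl ha.le) l
    rw [zero_mul, zero_mul, add_zero, add_zero] at hP0
    rw [hPg, hP0, hPr, mul_pow, mul_pow]
    have hnn : 0 ≤ ((a + g * flow (pos l) i + ((tr l).count (pos l, i) : ℝ)) /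
          (4 * a + g * (if pos l = 0 then 1 else 0) + ((src l).count (pos l) : ℝ))) ^ r := by
      apply pow_nonneg
      apply div_nonneg
      · have := pw_wt_nonneg habs hg hga (pos l) i
        unfold wt at this
        linarith
      · have := mul_nonneg hg hδ
        linarith
    have hQ : Real.exp ((r : ℝ) ^ 2 * g ^ 2 * pwQ a (i :: l)) =
        Real.exp ((r : ℝ) ^ 2 * g ^ 2 * pwQ a l) *
        Real.exp ((r : ℝ) ^ 2 * g ^ 2 * (flow (pos l) i ^ 2 /
          (a + ((tr l).count (pos l, i) : ℝ)) ^ 2)) := by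
      rw [← Real.exp_add, ← mul_add]
      rfl
    rw [hQ]
    calc _ ≤ (P (wt a 0) l ^ (r - 1) * P (wt a (r * g)) l *
      Real.exp ((r : ℝ) ^ 2 * g ^ 2 * pwQ a l)) * _ := mul_le_mul ih hst hnn (by positivity)
      _ = _ := by ring

theorem pow_compare (hdiv : ∀ x, ∑ i, flow x i = if x = 0 then 1 else 0)
    (habs : ∀ x i, |flow x i| ≤ 1 / 2) {a g : ℝ} (ha : 0 < a) (hg : 0 ≤ g) {r : ℕ} (hr : 1 ≤ r)
    (hgr : r * g ≤ a) {N : ℕ} {l : List (Fin 4)} (hl : ∀ v ∈ src l, v ∈ ball N) :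
    P (wt a g) l ^ r ≤ P (wt a 0) l ^ (r - 1) * P (wt a (r * g)) l *
      Real.exp ((r : ℝ) ^ 2 * g ^ 2 * (1 / a ^ 2 + 1 / a) *
        ∑ x ∈ ball N, ∑ i, flow x i ^ 2) := by
  have h := pow_compare_Q hdiv habs ha hg hr hgr l
  have hr0 : (0 : ℝ) ≤ r := Nat.cast_nonneg r
  have hrg : 0 ≤ r * g := mul_nonneg hr0 hg
  have hPr0 := pw_P_nonneg (pw_wt_nonneg habs hrg hgr) l
  have hP00 := pw_P_nonneg (pw_wt_nonneg habs le_rfl ha.le) l
  refine h.trans (mul_le_mul_of_nonneg_left ?_ (by positivity))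
  apply Real.exp_le_exp.mpr
  rw [mul_assoc ((r : ℝ) ^ 2 * g ^ 2)]
  exact mul_le_mul_of_nonneg_left (pwQ_le ha hl) (by positivity)

end Pool.Agent.DRW
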