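import Pool.Agent.DRW.Defs

/-!
# Time reversal of loops

`rv l` is the reversed loop.  `P w l` is a quotient of two products `R`, which only depend on the
multisets of traversed edges and of their starting points.
-/

namespace Pool.Agent.DRW

private noncomputable def R {α : Type*} [BEq α] [LawfulBEq α] (f : α → ℝ) : List α → ℝ
  | [] => 1
  | b :: L => R f L * (f b + (L.count b : ℝ))

private theorem R_perm {α : Type*} [BEq α] [LawfulBEq α] (f : α → ℝ) {L L' : List α}
    (h : L.Perm L') : R f L = R f L' := by
  induction h with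
  | nil => rfl
  | cons x h ih =>
    show R f _ * _ = R f _ * _
    rw [ih, h.count_eq]
  | swap x y l =>
    show R f l * (f x + (l.count x : ℝ)) * (f y + ((x :: l).count y : ℝ)) =
      R f l * (f y + (l.count y : ℝ)) * (f x + ((y :: l).count x : ℝ))
    by_cases hxy : x = y
    · subst hxy; rfl
    · rw [List.count_cons_of_ne (fun h => hxy h), List.count_cons_of_ne (fun h => hxy h.symm)]
      ring
  | trans _ _ ih1 ih2 => exact ih1.trans ih2

private theorem R_map {α β : Type*} [BEq α] [LawfulBEq α] [BEq β] [LawfulBEq β] (g : α → β)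
    (hg : Function.Injective g) (f : β → ℝ) (L : List α) :
    R f (L.map g) = R (fun a => f (g a)) L := by
  induction L with
  | nil => rfl
  | cons b L ih =>
    show R f (L.map g) * (f (g b) + ((L.map g).count (g b) : ℝ)) = R _ L * _
    rw [ih, List.count_map_of_injective L g hg]

private theorem R_pos {α : Type*} [BEq α] [LawfulBEq α] {f : α → ℝ} (hf : ∀ a, 0 < f a) (L : List α) :
    0 < R f L := by
  induction L with
  | nil => exact one_pos
  | cons b L ih =>
    exact mul_pos ih (add_pos_of_pos_of_nonneg (hf b) (Nat.cast_nonneg _))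

private theorem R_congr {α : Type*} [BEq α] [LawfulBEq α] {f g : α → ℝ} {z : α}
    (hfg : ∀ a, a ≠ z → f a = g a) : ∀ L : List α, L.count z = 0 → R f L = R g L
  | [], _ => rfl
  | b :: L, h => by
    have hb : b ≠ z := by
      rintro rfl
      rw [List.count_cons_self] at h
      omega
    rw [List.count_cons_of_ne hb] at h
    show R f L * _ = R g L * _
    rw [R_congr hfg L h, hfg b hb]

private theorem R_one {α : Type*} [BEq α] [LawfulBEq α] {f g : α → ℝ} {z : α}
    (hfg : ∀ a, a ≠ z → f a = g a) : ∀ L : List α, L.count z = 1 → f z * R g L = g z * R f L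
  | [], h => by simp at h
  | b :: L, h => by
    by_cases hb : b = z
    · subst hb
      rw [List.count_cons_self] at h
      have h0 : L.count b = 0 := by omega
      show f b * (R g L * (g b + (L.count b : ℝ))) = g b * (R f L * (f b + (L.count b : ℝ)))
      rw [R_congr hfg L h0, h0]
      push_cast
      ring
    · rw [List.count_cons_of_ne hb] at h
      have ih := R_one hfg L h
      show f z * (R g L * (g b + (L.count b : ℝ))) = g z * (R f L * (f b + (L.count b : ℝ)))
      rw [hfg b hb, ← mul_assoc, ih]
      ring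

private theorem P_eq (w : ℤ × ℤ → Fin 4 → ℝ) (l : List (Fin 4)) :
    P w l = R (fun e : (ℤ × ℤ) × Fin 4 => w e.1 e.2) (tr l) / R (W w) (src l) := by
  induction l with
  | nil =>
    show (1 : ℝ) = 1 / 1
    norm_num
  | cons i l ih =>
    show P w l * ((w (pos l) i + ((tr l).count (pos l, i) : ℝ)) /
      (W w (pos l) + ((src l).count (pos l) : ℝ))) =
      (R (fun e : (ℤ × ℤ) × Fin 4 => w e.1 e.2) (tr l) *
        (w (pos l) i + ((tr l).count (pos l, i) : ℝ))) /
      (R (W w) (src l) * (W w (pos l) + ((src l).count (pos l) : ℝ)))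
    rw [ih, div_mul_div_comm]

private theorem opp_opp (i : Fin 4) : opp (opp i) = i := by
  fin_cases i <;> rfl

private theorem d_opp (i : Fin 4) : d (opp i) = -d i := by
  fin_cases i <;> rfl

private theorem posF_append (x : ℤ × ℤ) (l1 l2 : List (Fin 4)) :
    posF x (l2 ++ l1) = posF (posF x l1) l2 := by
  induction l2 with
  | nil => rfl
  | cons i l ih =>
    show posF x (l ++ l1) + d i = posF (posF x l1) l + d i
    rw [ih]

private theorem trF_append (x : ℤ × ℤ) (l1 l2 : List (Fin 4)) :
    trF x (l2 ++ l1) = trF (posF x l1) l2 ++ trF x l1 := by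
  induction l2 with
  | nil => rfl
  | cons i l ih =>
    show (posF x (l ++ l1), i) :: trF x (l ++ l1) =
      (posF (posF x l1) l, i) :: (trF (posF x l1) l ++ trF x l1)
    rw [ih, posF_append]

private def rv (l : List (Fin 4)) : List (Fin 4) := (l.map opp).reverse

private theorem rv_cons (i : Fin 4) (l : List (Fin 4)) : rv (i :: l) = rv l ++ [opp i] := by
  simp [rv]

private theorem rv_rv (l : List (Fin 4)) : rv (rv l) = l := by
  unfold rv
  rw [List.map_reverse, List.reverse_reverse, List.map_map]
  have : opp ∘ opp = id := funext opp_opp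
  rw [this, List.map_id]

private theorem rv_length (l : List (Fin 4)) : (rv l).length = l.length := by
  simp [rv]

private theorem back (y : ℤ × ℤ) (i : Fin 4) : y + d i + d (opp i) = y := by
  rw [d_opp, add_assoc, add_neg_cancel, add_zero]

private theorem posF_rv (x : ℤ × ℤ) (l : List (Fin 4)) : posF (posF x l) (rv l) = x := by
  induction l with
  | nil => rfl
  | cons i l ih =>
    rw [rv_cons, posF_append]
    show posF (posF x l + d i + d (opp i)) (rv l) = x
    rw [back, ih]

/-- the reversed edge -/
private def sg (e : (ℤ × ℤ) × Fin 4) : (ℤ × ℤ) × Fin 4 := (e.1 + d e.2, opp e.2)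

private theorem sg_sg (e : (ℤ × ℤ) × Fin 4) : sg (sg e) = e := by
  obtain ⟨y, i⟩ := e
  show (y + d i + d (opp i), opp (opp i)) = (y, i)
  rw [back, opp_opp]

private theorem sg_inj : Function.Injective sg := fun a b h => by
  rw [← sg_sg a, h, sg_sg]

private theorem trF_rv (x : ℤ × ℤ) (l : List (Fin 4)) :
    (trF (posF x l) (rv l)).Perm ((trF x l).map sg) := by
  induction l with
  | nil => exact List.Perm.refl _
  | cons i l ih =>
    rw [rv_cons, trF_append]
    show (trF (posF x l + d i + d (opp i)) (rv l) ++ [(posF x l + d i, opp i)]).Perm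
      ((posF x l + d i, opp i) :: (trF x l).map sg)
    rw [back]
    exact (List.perm_append_comm).trans (List.Perm.cons _ ih)

private theorem src_tgt (x : ℤ × ℤ) (l : List (Fin 4)) :
    (posF x l :: srcF x l).Perm (x :: (trF x l).map (fun e => e.1 + d e.2)) := by
  induction l with
  | nil => exact List.Perm.refl _
  | cons i l ih =>
    show ((posF x l + d i) :: posF x l :: srcF x l).Perm
      (x :: (posF x l + d i) :: (trF x l).map (fun e => e.1 + d e.2))
    exact (List.Perm.cons _ ih).trans (List.Perm.swap _ _ _)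

private theorem src_rv {l : List (Fin 4)} (h : pos l = 0) : (src (rv l)).Perm (src l) := by
  have h1 := trF_rv 0 l
  have h' : posF 0 l = 0 := h
  rw [h'] at h1
  have h2 := h1.map Prod.fst
  rw [List.map_map] at h2
  have h3 := src_tgt 0 l
  rw [h'] at h3
  have h4 := (List.Perm.cons_inv h3).symm
  exact h2.trans h4

private theorem mem_words {n : ℕ} {l : List (Fin 4)} : l ∈ words n ↔ l.length = n := by
  induction n generalizing l with
  | zero =>
    simp [words]
  | succ n ih =>
    cases l with
    | nil => simp [words]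
    | cons i l => simp [words, ih]

private theorem rv_ret {B : Finset (ℤ × ℤ)} {l : List (Fin 4)} (h : Ret B l) : Ret B (rv l) := by
  obtain ⟨h1, h2, h3⟩ := h
  have hp := src_rv h1
  refine ⟨?_, ?_, ?_⟩
  · have h4 := posF_rv 0 l
    have h' : posF 0 l = 0 := h1
    rw [h'] at h4
    exact h4
  · rw [hp.count_eq]
    exact h2
  · intro v hv
    exact h3 v (hp.mem_iff.1 hv)

theorem ret_reverse {w w' : ℤ × ℤ → Fin 4 → ℝ} (hw : ∀ x i, 0 < w x i)
    (hw' : ∀ x i, 0 < w' x i) (hrev : ∀ x i, w' (x + d i) (opp i) = w x i)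
    (hW : ∀ x, x ≠ 0 → W w' x = W w x) (B : Finset (ℤ × ℤ)) (m : ℕ) :
    W w 0 * ∑ l ∈ retS B m, P w l = W w' 0 * ∑ l ∈ retS B m, P w' l := by
  classical
  have hWpos : ∀ x, 0 < W w x := fun x =>
    Finset.sum_pos (fun i _ => hw x i) Finset.univ_nonempty
  have hWpos' : ∀ x, 0 < W w' x := fun x =>
    Finset.sum_pos (fun i _ => hw' x i) Finset.univ_nonempty
  have key : ∀ l, Ret B l → W w 0 * P w l = W w' 0 * P w' (rv l) := by
    intro l hl
    obtain ⟨h1, h2, h3⟩ := hl
    rw [P_eq, P_eq]
    have ht := trF_rv 0 l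
    have h' : posF 0 l = 0 := h1
    rw [h'] at ht
    rw [R_perm _ ht, R_map sg sg_inj, R_perm _ (src_rv h1)]
    have hfun : (fun a : (ℤ × ℤ) × Fin 4 => w' (sg a).1 (sg a).2) =
        fun e : (ℤ × ℤ) × Fin 4 => w e.1 e.2 := funext fun e => hrev e.1 e.2
    rw [hfun]
    have h5 := R_one (f := W w) (g := W w') (z := 0) (fun a ha => (hW a ha).symm) (src l) h2
    have h6 := R_pos hWpos (src l)
    have h7 := R_pos hWpos' (src l)
    rw [mul_div_assoc', mul_div_assoc', div_eq_div_iff h6.ne' h7.ne']
    linear_combination (R (fun e : (ℤ × ℤ) × Fin 4 => w e.1 e.2) (tr l)) * h5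
  rw [Finset.mul_sum, Finset.mul_sum]
  have hmem : ∀ l, l ∈ retS B m → rv l ∈ retS B m := by
    intro l hl
    rw [retS, Finset.mem_filter, mem_words] at hl ⊢
    exact ⟨by rw [rv_length]; exact hl.1, rv_ret hl.2⟩
  refine Finset.sum_nbij' rv rv hmem hmem (fun l _ => rv_rv l) (fun l _ => rv_rv l) ?_
  intro l hl
  rw [retS, Finset.mem_filter] at hl
  exact key l hl.2

end Pool.Agent.DRW
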