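import Pool.Agent.DRW.Defs

/-!
# The reinforced walk leaves every finite box (module Surv)

If the weight `w y i` of one edge is halved, the probability of a path changes by a factor
`survA (number of crossings of the edge) * survB (number of visits of y)`; the second factor tends to
`0`.  So it is unlikely that `y` is visited often and the edge is crossed rarely.  By induction along
the horizontal half line which starts at `y` it is unlikely that `y` is visited often inside `B`.
-/

namespace Pool.Agent.DRW

open Filter Topology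

private theorem surv_sum_words (f : List (Fin 4) → ℝ) (n : ℕ) :
    ∑ l ∈ words (n + 1), f l = ∑ l ∈ words n, ∑ i, f (i :: l) := by
  rw [words, Finset.sum_image, Finset.sum_product_right]
  rintro ⟨i, l⟩ _ ⟨j, m⟩ _ h
  obtain ⟨h1, h2⟩ := List.cons.inj h
  exact Prod.ext h1 h2

private theorem surv_length {n : ℕ} : ∀ {l : List (Fin 4)}, l ∈ words n → l.length = n := by
  induction n with
  | zero =>
    intro l hl
    have h : l = [] := by simpa [words] using hl
    rw [h]
    rfl
  | succ n ih =>
    intro l hl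
    rw [words, Finset.mem_image] at hl
    obtain ⟨⟨i, m⟩, h1, h2⟩ := hl
    rw [Finset.mem_product] at h1
    rw [← h2, List.length_cons, ih h1.2]

private theorem surv_count_map (L : List ((ℤ × ℤ) × Fin 4)) (x : ℤ × ℤ) :
    ∑ i, L.count (x, i) = (L.map Prod.fst).count x := by
  induction L with
  | nil => simp
  | cons b L ih =>
    simp only [List.map_cons, List.count_cons]
    rw [Finset.sum_add_distrib, ih]
    congr 1
    obtain ⟨y, j⟩ := b
    by_cases h : y = x
    · subst h
      simp
    · simp [h]

private theorem surv_W_pos {w : ℤ × ℤ → Fin 4 → ℝ} (hw : ∀ x i, 0 < w x i) (x : ℤ × ℤ) :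
    0 < W w x := Finset.sum_pos (fun i _ => hw x i) Finset.univ_nonempty

private theorem surv_step {w : ℤ × ℤ → Fin 4 → ℝ} (hw : ∀ x i, 0 < w x i)
    (l : List (Fin 4)) : ∑ i, P w (i :: l) = P w l := by
  have h1 : ∑ i, (w (pos l) i + ((tr l).count (pos l, i) : ℝ)) =
      W w (pos l) + ((src l).count (pos l) : ℝ) := by
    rw [Finset.sum_add_distrib, ← Nat.cast_sum, surv_count_map]
    rfl
  have h2 : W w (pos l) + ((src l).count (pos l) : ℝ) ≠ 0 := by
    have := surv_W_pos hw (pos l)
    positivity
  simp only [P]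
  rw [← Finset.mul_sum, ← Finset.sum_div, h1, div_self h2, mul_one]

private theorem surv_total {w : ℤ × ℤ → Fin 4 → ℝ} (hw : ∀ x i, 0 < w x i) (n : ℕ) :
    ∑ l ∈ words n, P w l = 1 := by
  induction n with
  | zero => simp [words, P]
  | succ n ih =>
    rw [surv_sum_words]
    simp only [surv_step hw]
    exact ih

private theorem surv_P_nonneg {w : ℤ × ℤ → Fin 4 → ℝ} (hw : ∀ x i, 0 < w x i)
    (l : List (Fin 4)) : 0 ≤ P w l := by
  induction l with
  | nil => exact zero_le_one
  | cons i l ih =>
    have h1 := surv_W_pos hw (pos l)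
    have h2 := hw (pos l) i
    simp only [P]
    positivity

/-! ### Halving one weight -/

private noncomputable def survA (a : ℝ) (n : ℕ) : ℝ :=
  ∏ j ∈ Finset.range n, ((a + (j : ℝ)) / (a / 2 + (j : ℝ)))

private noncomputable def survB (s a : ℝ) (n : ℕ) : ℝ :=
  ∏ j ∈ Finset.range n, ((s - a / 2 + (j : ℝ)) / (s + (j : ℝ)))

private theorem survA_mono {a : ℝ} (ha : 0 < a) : Monotone (survA a) := by
  refine monotone_nat_of_le_succ fun n => ?_
  unfold survA
  rw [Finset.prod_range_succ]
  have h1 : 1 ≤ (a + (n : ℝ)) / (a / 2 + (n : ℝ)) := by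
    rw [le_div_iff₀ (by positivity)]
    linarith
  exact le_mul_of_one_le_right (Finset.prod_nonneg fun j _ => by positivity) h1

private theorem survA_nonneg {a : ℝ} (ha : 0 < a) (n : ℕ) : 0 ≤ survA a n :=
  Finset.prod_nonneg fun j _ => by positivity

private theorem survB_nonneg {s a : ℝ} (ha : 0 < a) (hs : a ≤ s) (n : ℕ) : 0 ≤ survB s a n := by
  refine Finset.prod_nonneg fun j _ => div_nonneg ?_ ?_
  · have : (0 : ℝ) ≤ j := Nat.cast_nonneg j
    linarith
  · have : (0 : ℝ) ≤ j := Nat.cast_nonneg j
    linarith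

private theorem survB_anti {s a : ℝ} (ha : 0 < a) (hs : a ≤ s) : Antitone (survB s a) := by
  refine antitone_nat_of_succ_le fun n => ?_
  have h0 := survB_nonneg ha hs n
  unfold survB at h0 ⊢
  rw [Finset.prod_range_succ]
  have hn : (0 : ℝ) ≤ n := Nat.cast_nonneg n
  have h1 : (s - a / 2 + (n : ℝ)) / (s + (n : ℝ)) ≤ 1 := by
    rw [div_le_one (by linarith)]
    linarith
  exact mul_le_of_le_one_right h0 h1

private theorem survB_tendsto {s a : ℝ} (ha : 0 < a) (hs : a ≤ s) :
    Tendsto (survB s a) atTop (𝓝 0) := by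
  set C : ℝ := max s 1 with hC
  have hC1 : 1 ≤ C := le_max_right _ _
  have hCs : s ≤ C := le_max_left _ _
  have hle : ∀ n, survB s a n ≤
      Real.exp (-(a / 2 / C * ∑ j ∈ Finset.range n, (1 / ((j : ℝ) + 1)))) := by
    intro n
    unfold survB
    rw [Finset.mul_sum, ← Finset.sum_neg_distrib, Real.exp_sum]
    refine Finset.prod_le_prod (fun j _ => ?_) fun j _ => ?_
    · have : (0 : ℝ) ≤ j := Nat.cast_nonneg j
      exact div_nonneg (by linarith) (by linarith)
    · have hj : (0 : ℝ) ≤ j := Nat.cast_nonneg j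
      have h1 : (s - a / 2 + (j : ℝ)) / (s + (j : ℝ)) = 1 - a / 2 / (s + j) := by
        have : s + (j : ℝ) ≠ 0 := by linarith
        field_simp
        ring
      have h2 : a / 2 / C * (1 / ((j : ℝ) + 1)) ≤ a / 2 / (s + j) := by
        have h3 : s + (j : ℝ) ≤ C * ((j : ℝ) + 1) := by nlinarith
        have h4 : a / 2 / C * (1 / ((j : ℝ) + 1)) = a / 2 / (C * ((j : ℝ) + 1)) := by
          have : (j : ℝ) + 1 ≠ 0 := by positivity
          field_simp
        rw [h4]
        exact div_le_div_of_nonneg_left (by linarith) (by linarith) h3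
      rw [h1]
      have h5 := Real.add_one_le_exp (-(a / 2 / C * (1 / ((j : ℝ) + 1))))
      linarith
  have hexp : Tendsto (fun n : ℕ =>
      Real.exp (-(a / 2 / C * ∑ j ∈ Finset.range n, (1 / ((j : ℝ) + 1))))) atTop (𝓝 0) := by
    refine Real.tendsto_exp_neg_atTop_nhds_zero.comp ?_
    refine Tendsto.const_mul_atTop (by positivity) ?_
    exact Real.tendsto_sum_range_one_div_nat_succ_atTop
  exact squeeze_zero (survB_nonneg ha hs) hle hexp

private noncomputable def survW (w : ℤ × ℤ → Fin 4 → ℝ) (y : ℤ × ℤ) (i : Fin 4) :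
    ℤ × ℤ → Fin 4 → ℝ := fun x j => if x = y ∧ j = i then w y i / 2 else w x j

private theorem survW_pos {w : ℤ × ℤ → Fin 4 → ℝ} (hw : ∀ x i, 0 < w x i) (y : ℤ × ℤ)
    (i : Fin 4) : ∀ x j, 0 < survW w y i x j := by
  intro x j
  unfold survW
  split_ifs
  · exact half_pos (hw y i)
  · exact hw x j

private theorem survW_W (w : ℤ × ℤ → Fin 4 → ℝ) (y : ℤ × ℤ) (i : Fin 4) :
    W (survW w y i) y = W w y - w y i / 2 := by
  unfold W
  rw [← Finset.add_sum_erase _ _ (Finset.mem_univ i),
    ← Finset.add_sum_erase (a := i) Finset.univ (fun j => w y j) (Finset.mem_univ i)]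
  have h1 : ∑ j ∈ Finset.univ.erase i, survW w y i y j = ∑ j ∈ Finset.univ.erase i, w y j := by
    refine Finset.sum_congr rfl fun j hj => ?_
    unfold survW
    rw [if_neg]
    exact fun h => Finset.ne_of_mem_erase hj h.2
  rw [h1]
  unfold survW
  rw [if_pos ⟨rfl, rfl⟩]
  ring

private theorem survW_W' (w : ℤ × ℤ → Fin 4 → ℝ) {x y : ℤ × ℤ} (i : Fin 4) (h : x ≠ y) :
    W (survW w y i) x = W w x := by
  unfold W
  refine Finset.sum_congr rfl fun j _ => ?_
  unfold survW
  rw [if_neg]
  exact fun h' => h h'.1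

private theorem surv_alg (p u v x x' D D' : ℝ) (hD : D ≠ 0) (hD' : D' ≠ 0) (hx' : x' ≠ 0) :
    p * u * v * (x / D) = p * (x' / D') * (u * (x / x')) * (v * (D' / D)) := by
  field_simp

private theorem surv_alg' (p u v x D D' : ℝ) (hD : D ≠ 0) (hD' : D' ≠ 0) :
    p * u * v * (x / D) = p * (x / D') * u * (v * (D' / D)) := by
  field_simp

private theorem surv_ratio {w : ℤ × ℤ → Fin 4 → ℝ} (hw : ∀ x i, 0 < w x i) (y : ℤ × ℤ)
    (i : Fin 4) (l : List (Fin 4)) :
    P w l = P (survW w y i) l * survA (w y i) ((tr l).count (y, i)) *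
      survB (W w y) (w y i) ((src l).count y) := by
  have ha := hw y i
  have hs : w y i ≤ W w y :=
    Finset.single_le_sum (f := fun j => w y j) (fun j _ => (hw y j).le) (Finset.mem_univ i)
  induction l with
  | nil => simp [P, survA, survB, trF, srcF]
  | cons j l ih =>
    have htr : tr (j :: l) = (pos l, j) :: tr l := rfl
    have hsrc : src (j :: l) = pos l :: src l := rfl
    have hP : ∀ v : ℤ × ℤ → Fin 4 → ℝ, P v (j :: l) = P v l *
      ((v (pos l) j + ((tr l).count (pos l, j) : ℝ)) /
        (W v (pos l) + ((src l).count (pos l) : ℝ))) := fun v => rfl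
    rw [htr, hsrc, hP, hP]
    by_cases hp : pos l = y
    · rw [hp]
      set c : ℕ := (src l).count y with hc
      have hc0 : (0 : ℝ) ≤ (c : ℝ) := Nat.cast_nonneg c
      have e1 : List.count y (y :: src l) = c + 1 := by rw [List.count_cons_self]
      have e2 : survB (W w y) (w y i) (c + 1) =
          survB (W w y) (w y i) c * ((W w y - w y i / 2 + (c : ℝ)) / (W w y + (c : ℝ))) := by
        unfold survB
        rw [Finset.prod_range_succ]
      rw [e1, e2, survW_W, ih]
      have h1 : W w y + (c : ℝ) ≠ 0 := by linarith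
      have h2 : W w y - w y i / 2 + (c : ℝ) ≠ 0 := by linarith
      by_cases hj : j = i
      · subst hj
        have e3 : List.count (y, j) ((y, j) :: tr l) = (tr l).count (y, j) + 1 := by
          rw [List.count_cons_self]
        have e4 : survW w y j y j = w y j / 2 := by
          unfold survW
          rw [if_pos ⟨rfl, rfl⟩]
        rw [e3, e4]
        set m : ℕ := (tr l).count (y, j) with hm
        have hm0 : (0 : ℝ) ≤ (m : ℝ) := Nat.cast_nonneg m
        have e5 : survA (w y j) (m + 1) =
            survA (w y j) m * ((w y j + (m : ℝ)) / (w y j / 2 + (m : ℝ))) := by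
          unfold survA
          rw [Finset.prod_range_succ]
        rw [e5]
        have h3 : w y j / 2 + (m : ℝ) ≠ 0 := by linarith
        exact surv_alg _ _ _ _ _ _ _ h1 h2 h3
      · have e3 : List.count (y, i) ((y, j) :: tr l) = (tr l).count (y, i) := by
          refine List.count_cons_of_ne ?_
          intro h
          exact hj (Prod.ext_iff.1 h).2
        have e4 : survW w y i y j = w y j := by
          unfold survW
          rw [if_neg]
          exact fun h => hj h.2
        rw [e3, e4]
        exact surv_alg' _ _ _ _ _ _ h1 h2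
    · have e1 : List.count y (pos l :: src l) = (src l).count y :=
        List.count_cons_of_ne hp
      have e3 : List.count (y, i) ((pos l, j) :: tr l) = (tr l).count (y, i) := by
        refine List.count_cons_of_ne ?_
        intro h
        exact hp (Prod.ext_iff.1 h).1
      have e4 : survW w y i (pos l) j = w (pos l) j := by
        unfold survW
        rw [if_neg]
        exact fun h => hp h.1
      rw [e1, e3, e4, survW_W' w i hp, ih]
      ring

open Classical in
private theorem surv_rare {w : ℤ × ℤ → Fin 4 → ℝ} (hw : ∀ x i, 0 < w x i) (y : ℤ × ℤ)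
    (i : Fin 4) (J K n : ℕ) :
    ∑ l ∈ (words n).filter (fun l => (tr l).count (y, i) ≤ J ∧ K ≤ (src l).count y), P w l ≤
      survA (w y i) J * survB (W w y) (w y i) K := by
  have ha := hw y i
  have hs : w y i ≤ W w y :=
    Finset.single_le_sum (f := fun j => w y j) (fun j _ => (hw y j).le) (Finset.mem_univ i)
  have hP := surv_P_nonneg (survW_pos hw y i)
  calc ∑ l ∈ (words n).filter (fun l => (tr l).count (y, i) ≤ J ∧ K ≤ (src l).count y), P w l
      ≤ ∑ l ∈ (words n).filter (fun l => (tr l).count (y, i) ≤ J ∧ K ≤ (src l).count y),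
          P (survW w y i) l * (survA (w y i) J * survB (W w y) (w y i) K) := by
        refine Finset.sum_le_sum fun l hl => ?_
        obtain ⟨-, h1, h2⟩ := Finset.mem_filter.1 hl
        rw [surv_ratio hw y i l, mul_assoc]
        refine mul_le_mul_of_nonneg_left ?_ (hP l)
        exact mul_le_mul (survA_mono ha h1) (survB_anti ha hs h2) (survB_nonneg ha hs _)
          (survA_nonneg ha _)
    _ ≤ ∑ l ∈ words n, P (survW w y i) l * (survA (w y i) J * survB (W w y) (w y i) K) := by
        refine Finset.sum_le_sum_of_subset_of_nonneg (Finset.filter_subset _ _) fun l _ _ => ?_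
        exact mul_nonneg (hP l) (mul_nonneg (survA_nonneg ha _) (survB_nonneg ha hs _))
    _ = survA (w y i) J * survB (W w y) (w y i) K := by
        rw [← Finset.sum_mul, surv_total (survW_pos hw y i), one_mul]

private theorem surv_arrivals (y : ℤ × ℤ) (l : List (Fin 4)) :
    (tr l).count (y, 0) ≤ (src l).count (y + d 0) + (if pos l = y + d 0 then 1 else 0) := by
  have hne : y ≠ y + d 0 := by
    intro h
    have h1 := congrArg Prod.fst h
    simp [d] at h1
  induction l with
  | nil => simp [trF]
  | cons j l ih =>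
    have htr : tr (j :: l) = (pos l, j) :: tr l := rfl
    have hsrc : src (j :: l) = pos l :: src l := rfl
    have hpos : pos (j :: l) = pos l + d j := rfl
    rw [htr, hsrc, hpos]
    by_cases hp : pos l = y + d 0
    · rw [if_pos hp] at ih
      have e1 : List.count (y + d 0) (pos l :: src l) = (src l).count (y + d 0) + 1 := by
        rw [hp, List.count_cons_self]
      have e2 : List.count (y, 0) ((pos l, j) :: tr l) = (tr l).count (y, 0) := by
        refine List.count_cons_of_ne ?_
        intro h
        have h1 : pos l = y := (Prod.ext_iff.1 h).1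
        exact hne (h1.symm.trans hp)
      rw [e1, e2]
      omega
    · rw [if_neg hp] at ih
      have e1 : List.count (y + d 0) (pos l :: src l) = (src l).count (y + d 0) :=
        List.count_cons_of_ne hp
      rw [e1]
      by_cases hq : ((pos l, j) : (ℤ × ℤ) × Fin 4) = (y, 0)
      · have h1 : pos l = y := (Prod.ext_iff.1 hq).1
        have h2 : j = 0 := (Prod.ext_iff.1 hq).2
        have e2 : List.count (y, 0) ((pos l, j) :: tr l) = (tr l).count (y, 0) + 1 := by
          rw [hq, List.count_cons_self]
        rw [e2, if_pos (by rw [h1, h2])]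
        omega
      · have e2 : List.count (y, 0) ((pos l, j) :: tr l) = (tr l).count (y, 0) :=
          List.count_cons_of_ne hq
        rw [e2]
        omega

open Classical in
private theorem surv_claim {w : ℤ × ℤ → Fin 4 → ℝ} (hw : ∀ x i, 0 < w x i)
    (B : Finset (ℤ × ℤ)) (t : ℕ) : ∀ y : ℤ × ℤ, y + ((t : ℤ), 0) ∉ B → ∀ ε : ℝ, 0 < ε →
      ∃ K : ℕ, ∀ n, ∑ l ∈ (words n).filter (fun l => (∀ v ∈ src l, v ∈ B) ∧
        K ≤ (src l).count y), P w l ≤ ε := by
  induction t with
  | zero =>
    intro y hy ε hε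
    refine ⟨1, fun n => ?_⟩
    have hy' : y ∉ B := by
      intro h
      apply hy
      have h1 : y + (((0 : ℕ) : ℤ), (0 : ℤ)) = y := by
        ext <;> simp
      rw [h1]
      exact h
    have h1 : (words n).filter (fun l => (∀ v ∈ src l, v ∈ B) ∧ 1 ≤ (src l).count y) = ∅ := by
      refine Finset.filter_eq_empty_iff.2 fun l _ h => ?_
      exact hy' (h.1 y (List.count_pos_iff.1 h.2))
    rw [h1, Finset.sum_empty]
    exact hε.le
  | succ t ih =>
    intro y hy ε hε
    have hy' : y + d 0 + ((t : ℤ), 0) ∉ B := by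
      have h1 : y + d 0 + ((t : ℤ), 0) = y + (((t + 1 : ℕ) : ℤ), 0) := by
        ext
        · simp [d]
          ring
        · simp [d]
      rw [h1]
      exact hy
    obtain ⟨K', hK'⟩ := ih (y + d 0) hy' (ε / 2) (half_pos hε)
    have ha := hw y 0
    have hs : w y 0 ≤ W w y :=
      Finset.single_le_sum (f := fun j => w y j) (fun j _ => (hw y j).le) (Finset.mem_univ 0)
    have hlim := (survB_tendsto ha hs).const_mul (survA (w y 0) K')
    rw [mul_zero] at hlim
    obtain ⟨K, hK⟩ := (hlim.eventually_lt_const (half_pos hε)).exists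
    refine ⟨K, fun n => ?_⟩
    have hsub : (words n).filter (fun l => (∀ v ∈ src l, v ∈ B) ∧ K ≤ (src l).count y) ⊆
        ((words n).filter (fun l => (∀ v ∈ src l, v ∈ B) ∧ K' ≤ (src l).count (y + d 0))) ∪
        ((words n).filter (fun l => (tr l).count (y, 0) ≤ K' ∧ K ≤ (src l).count y)) := by
      intro l hl
      obtain ⟨h1, h2, h3⟩ := Finset.mem_filter.1 hl
      rw [Finset.mem_union, Finset.mem_filter, Finset.mem_filter]
      rcases le_or_gt K' ((src l).count (y + d 0)) with h4 | h4
      · exact Or.inl ⟨h1, h2, h4⟩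
      · right
        refine ⟨h1, ?_, h3⟩
        have h5 := surv_arrivals y l
        split_ifs at h5 <;> omega
    have hP := surv_P_nonneg hw
    calc _ ≤ ∑ l ∈ ((words n).filter
          (fun l => (∀ v ∈ src l, v ∈ B) ∧ K' ≤ (src l).count (y + d 0))) ∪
        ((words n).filter (fun l => (tr l).count (y, 0) ≤ K' ∧ K ≤ (src l).count y)), P w l :=
          Finset.sum_le_sum_of_subset_of_nonneg hsub fun l _ _ => hP l
      _ ≤ (∑ l ∈ (words n).filter
          (fun l => (∀ v ∈ src l, v ∈ B) ∧ K' ≤ (src l).count (y + d 0)), P w l) +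
        ∑ l ∈ (words n).filter (fun l => (tr l).count (y, 0) ≤ K' ∧ K ≤ (src l).count y), P w l := by
          rw [← Finset.sum_union_inter]
          exact le_add_of_nonneg_right (Finset.sum_nonneg fun l _ => hP l)
      _ ≤ ε / 2 + ε / 2 := add_le_add (hK' n) ((surv_rare hw y 0 K' K n).trans hK.le)
      _ = ε := add_halves ε

private theorem surv_exists (B : Finset (ℤ × ℤ)) (y : ℤ × ℤ) :
    ∃ t : ℕ, y + ((t : ℤ), 0) ∉ B := by
  by_contra h
  push Not at h
  have hinj : Function.Injective (fun t : ℕ => y + ((t : ℤ), (0 : ℤ))) := by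
    intro s t hst
    have h1 := congrArg Prod.fst hst
    simpa using h1
  exact Set.infinite_range_of_injective hinj (B.finite_toSet.subset (by
    rintro _ ⟨t, rfl⟩
    exact h t))

private theorem surv_sum_count (B : Finset (ℤ × ℤ)) (L : List (ℤ × ℤ)) (h : ∀ v ∈ L, v ∈ B) :
    ∑ y ∈ B, L.count y = L.length := by
  induction L with
  | nil => simp
  | cons v L ih =>
    simp only [List.count_cons, List.length_cons]
    rw [Finset.sum_add_distrib, ih fun u hu => h u (List.mem_cons_of_mem _ hu)]
    congr 1
    have hv : v ∈ B := h v List.mem_cons_self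
    simp only [beq_iff_eq]
    rw [Finset.sum_ite_eq, if_pos hv]

private theorem surv_biUnion {α β : Type} [DecidableEq β] (s : Finset α) (t : α → Finset β)
    (f : β → ℝ) (hf : ∀ b, 0 ≤ f b) : ∑ b ∈ s.biUnion t, f b ≤ ∑ a ∈ s, ∑ b ∈ t a, f b := by
  classical
  induction s using Finset.induction_on with
  | empty => simp
  | insert a s ha ih =>
    rw [Finset.biUnion_insert, Finset.sum_insert ha]
    have h1 : ∑ b ∈ t a ∪ s.biUnion t, f b ≤ ∑ b ∈ t a, f b + ∑ b ∈ s.biUnion t, f b := by
      rw [← Finset.sum_union_inter]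
      exact le_add_of_nonneg_right (Finset.sum_nonneg fun b _ => hf b)
    linarith

theorem alive_small {w : ℤ × ℤ → Fin 4 → ℝ} (hw : ∀ x i, 0 < w x i) (B : Finset (ℤ × ℤ))
    {ε : ℝ} (hε : 0 < ε) : ∃ n, ∑ l ∈ aliveS B n, P w l ≤ ε := by
  classical
  have hc : (0 : ℝ) < (B.card : ℝ) + 1 := by positivity
  have h1 : ∀ y : ℤ × ℤ, ∃ K : ℕ, ∀ n, ∑ l ∈ (words n).filter (fun l => (∀ v ∈ src l, v ∈ B) ∧
      K ≤ (src l).count y), P w l ≤ ε / ((B.card : ℝ) + 1) := by
    intro y
    obtain ⟨t, ht⟩ := surv_exists B y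
    exact surv_claim hw B t y ht _ (div_pos hε hc)
  choose K hK using h1
  refine ⟨(∑ y ∈ B, K y) + 1, ?_⟩
  set n : ℕ := (∑ y ∈ B, K y) + 1 with hn
  have hP := surv_P_nonneg hw
  have hsub : aliveS B n ⊆ B.biUnion fun y => (words n).filter (fun l => (∀ v ∈ src l, v ∈ B) ∧
      K y ≤ (src l).count y) := by
    intro l hl
    unfold aliveS at hl
    obtain ⟨h2, h3⟩ := Finset.mem_filter.1 hl
    have hlen := surv_length h2
    rcases h3 with h3 | ⟨-, -, -, h3⟩
    · rw [h3] at hlen
      simp at hlen
    rw [Finset.mem_biUnion]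
    by_contra hcon
    push Not at hcon
    have h4 : ∀ y ∈ B, (src l).count y ≤ K y := by
      intro y hy
      by_contra h5
      exact hcon y hy (Finset.mem_filter.2 ⟨h2, h3, by omega⟩)
    have h5 : ∑ y ∈ B, (src l).count y = n := by
      rw [surv_sum_count B (src l) h3]
      have h7 : ∀ m : List (Fin 4), (src m).length = m.length := by
        intro m
        induction m with
        | nil => rfl
        | cons j m ihm =>
          have hsrc : src (j :: m) = pos m :: src m := rfl
          rw [hsrc, List.length_cons, List.length_cons, ihm]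
      rw [h7, hlen]
    have h6 := Finset.sum_le_sum h4
    omega
  calc ∑ l ∈ aliveS B n, P w l
      ≤ ∑ l ∈ B.biUnion fun y => (words n).filter (fun l => (∀ v ∈ src l, v ∈ B) ∧
          K y ≤ (src l).count y), P w l :=
        Finset.sum_le_sum_of_subset_of_nonneg hsub fun l _ _ => hP l
    _ ≤ ∑ y ∈ B, ∑ l ∈ (words n).filter (fun l => (∀ v ∈ src l, v ∈ B) ∧
          K y ≤ (src l).count y), P w l := by
        exact surv_biUnion B _ _ hP
    _ ≤ ∑ y ∈ B, ε / ((B.card : ℝ) + 1) := Finset.sum_le_sum fun y _ => hK y n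
    _ = (B.card : ℝ) * (ε / ((B.card : ℝ) + 1)) := by rw [Finset.sum_const, nsmul_eq_mul]
    _ ≤ ε := by
        rw [← mul_div_assoc, div_le_iff₀ hc]
        nlinarith

end Pool.Agent.DRW
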