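import Pool.Agent.DRW.Cons
import Pool.Agent.DRW.Rev
import Pool.Agent.DRW.Surv
import Pool.Agent.DRW.Pow
import Pool.Agent.DRW.Flow

/-!
# The escape probability of the directed-edge reinforced walk on the square lattice
-/

namespace Pool.Agent.DRW

open Finset

lemma P_pos {w : ℤ × ℤ → Fin 4 → ℝ} (hw : ∀ x i, 0 < w x i) (l : List (Fin 4)) : 0 < P w l := by
  induction l with
  | nil => simp [P]
  | cons i l ih =>
    have hW : 0 < W w (pos l) := Finset.sum_pos (fun i _ => hw _ i) ⟨0, Finset.mem_univ _⟩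
    have h1 : 0 < w (pos l) i + ((tr l).count (pos l, i) : ℝ) := by
      have := hw (pos l) i
      positivity
    simp only [P]
    positivity

/-- Young's inequality in the form that is used. -/
lemma young {x y z K lam : ℝ} (hx : 0 ≤ x) (hz : 0 ≤ z) (hK : 0 ≤ K)
    (hl : 0 < lam) {r : ℕ} (hr : 2 ≤ r) (h : y ^ r ≤ x ^ (r - 1) * z * K) :
    y ≤ lam * x + K / lam ^ (r - 1) * z := by
  by_cases hxy : y ≤ lam * x
  · have : 0 ≤ K / lam ^ (r - 1) * z := by positivity
    linarith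
  · push Not at hxy
    have hy0 : 0 < y := lt_of_le_of_lt (by positivity) hxy
    have h1 : x ≤ y / lam := by
      rw [le_div_iff₀ hl]
      linarith [mul_comm lam x]
    have h2 : x ^ (r - 1) ≤ (y / lam) ^ (r - 1) := pow_le_pow_left₀ hx h1 _
    have h3 : y ^ r ≤ (y / lam) ^ (r - 1) * z * K := by
      refine h.trans ?_
      have := mul_le_mul_of_nonneg_right (mul_le_mul_of_nonneg_right h2 hz) hK
      exact this
    have h4 : y ^ r = y * y ^ (r - 1) := by
      rw [← pow_succ']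
      congr 1
      omega
    rw [h4, div_pow] at h3
    have h5 : y ^ (r - 1) / lam ^ (r - 1) * z * K = (K / lam ^ (r - 1) * z) * y ^ (r - 1) := by
      ring
    rw [h5] at h3
    have h6 := le_of_mul_le_mul_right h3 (by positivity)
    have : 0 ≤ lam * x := by positivity
    linarith

lemma W_wt (a g : ℝ) (x : ℤ × ℤ) : W (wt a g) x = 4 * a + if x = 0 then g else 0 := by
  unfold W wt
  rw [Finset.sum_add_distrib, ← Finset.mul_sum, flow_div]
  split_ifs <;> simp

lemma wt_pos {a g : ℝ} (ha : 0 < a) (hg : |g| ≤ a) (x : ℤ × ℤ) (i : Fin 4) : 0 < wt a g x i := by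
  unfold wt
  have h1 := flow_abs x i
  have h2 : |g * flow x i| ≤ a * (1 / 2) := by
    rw [abs_mul]
    exact mul_le_mul hg h1 (abs_nonneg _) ha.le
  have := (abs_le.1 h2).1
  linarith

lemma zero_mem_ball {N : ℕ} (hN : 1 ≤ N) : (0 : ℤ × ℤ) ∈ ball N := by
  unfold ball
  simp
  omega

/-- The sum of the exit probabilities up to time `n`. -/
noncomputable def ex (w : ℤ × ℤ → Fin 4 → ℝ) (N n : ℕ) : ℝ :=
  ∑ m ∈ range (n + 1), ∑ l ∈ exitS (ball N) m, P w l

/-- The sum of the return probabilities up to time `n`. -/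
noncomputable def rt (w : ℤ × ℤ → Fin 4 → ℝ) (N n : ℕ) : ℝ :=
  ∑ m ∈ range (n + 1), ∑ l ∈ retS (ball N) m, P w l

lemma ex_nonneg {w : ℤ × ℤ → Fin 4 → ℝ} (hw : ∀ x i, 0 < w x i) (N n : ℕ) : 0 ≤ ex w N n :=
  Finset.sum_nonneg fun _ _ => Finset.sum_nonneg fun l _ => (P_pos hw l).le

lemma alive_nonneg {w : ℤ × ℤ → Fin 4 → ℝ} (hw : ∀ x i, 0 < w x i) (N n : ℕ) :
    0 ≤ ∑ l ∈ aliveS (ball N) n, P w l :=
  Finset.sum_nonneg fun l _ => (P_pos hw l).le

lemma rt_nonneg {w : ℤ × ℤ → Fin 4 → ℝ} (hw : ∀ x i, 0 < w x i) (N n : ℕ) : 0 ≤ rt w N n :=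
  Finset.sum_nonneg fun _ _ => Finset.sum_nonneg fun l _ => (P_pos hw l).le

/-- Escape probability with outflow `g` at the origin. -/
lemma ex_lower {a g : ℝ} (ha : 0 < a) (hg : 0 < g) (hga : g ≤ a) {N : ℕ} (hN : 1 ≤ N) :
    ∃ n, g / (5 * a) ≤ ex (wt a g) N n := by
  have hp : ∀ x i, 0 < wt a g x i := wt_pos ha (by rwa [abs_of_pos hg])
  have hm : ∀ x i, 0 < wt a (-g) x i := wt_pos ha (by rwa [abs_neg, abs_of_pos hg])
  obtain ⟨n, hn⟩ := alive_small hp (ball N) (ε := g / (4 * a + g)) (by positivity)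
  refine ⟨n, ?_⟩
  have h1 := cons_total hp (zero_mem_ball hN) n
  have h2 := cons_total hm (zero_mem_ball hN) n
  have h3 : W (wt a g) 0 * rt (wt a g) N n = W (wt a (-g)) 0 * rt (wt a (-g)) N n := by
    unfold rt
    rw [Finset.mul_sum, Finset.mul_sum]
    refine Finset.sum_congr rfl fun m _ => ?_
    refine ret_reverse hp hm (fun x i => ?_) (fun x hx => ?_) _ _
    · unfold wt
      rw [flow_anti]
      ring
    · rw [W_wt, W_wt, if_neg hx, if_neg hx]
  rw [W_wt, W_wt, if_pos rfl, if_pos rfl] at h3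
  change rt (wt a g) N n + ex (wt a g) N n + _ = 1 at h1
  change rt (wt a (-g)) N n + ex (wt a (-g)) N n + _ = 1 at h2
  have h4 : rt (wt a (-g)) N n ≤ 1 := by
    have := ex_nonneg hm N n
    have := alive_nonneg hm N n
    linarith
  have h5 : (4 * a + g) * rt (wt a g) N n ≤ 4 * a - g := by
    rw [h3]
    have : 0 ≤ 4 * a + -g := by linarith
    nlinarith
  have h6 : rt (wt a g) N n ≤ (4 * a - g) / (4 * a + g) := by
    rw [le_div_iff₀ (by positivity)]
    linarith [mul_comm (4 * a + g) (rt (wt a g) N n)]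
  have h7 : (4 * a - g) / (4 * a + g) = 1 - 2 * (g / (4 * a + g)) := by
    field_simp
    ring
  have h8 : g / (4 * a + g) ≤ ex (wt a g) N n := by
    rw [h7] at h6
    linarith
  have h9 : g / (5 * a) ≤ g / (4 * a + g) := by
    apply div_le_div_of_nonneg_left hg.le (by positivity)
    linarith
  linarith

/-- The comparison, summed. -/
lemma ex_compare {a g : ℝ} (ha : 0 < a) (hg : 0 ≤ g) {r : ℕ} (hr : 2 ≤ r) (hgr : r * g ≤ a)
    {N : ℕ} (hN : 1 ≤ N) (n : ℕ) {lam : ℝ} (hl : 0 < lam) :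
    ex (wt a g) N n ≤ lam * ex (wt a 0) N n +
      Real.exp ((r : ℝ) ^ 2 * g ^ 2 * (1 / a ^ 2 + 1 / a) * (2 * (1 + Real.log N))) /
        lam ^ (r - 1) := by
  have hr1 : (1 : ℝ) ≤ r := by exact_mod_cast (by omega : 1 ≤ r)
  have hga : g ≤ a := by nlinarith
  have hp : ∀ x i, 0 < wt a g x i := wt_pos ha (by rwa [abs_of_nonneg hg])
  have h0 : ∀ x i, 0 < wt a 0 x i := wt_pos ha (by simp [ha.le])
  have hrp : ∀ x i, 0 < wt a (r * g) x i := wt_pos ha (by rwa [abs_of_nonneg (by positivity)])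
  set K := Real.exp ((r : ℝ) ^ 2 * g ^ 2 * (1 / a ^ 2 + 1 / a) * (2 * (1 + Real.log N))) with hK
  have key : ∀ m, ∀ l ∈ exitS (ball N) m, P (wt a g) l ≤ lam * P (wt a 0) l +
      K / lam ^ (r - 1) * P (wt a (r * g)) l := by
    intro m l hl'
    have hE : Exit (ball N) l := by
      classical
      unfold exitS at hl'
      simpa using (Finset.mem_filter.1 hl').2
    have h1 := pow_compare flow_div flow_abs ha hg (r := r) (by omega) hgr (N := N) (l := l) hE.2.2
    refine young (P_pos h0 l).le (P_pos hrp l).le (Real.exp_pos _).le hl hr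
      (h1.trans ?_)
    refine mul_le_mul_of_nonneg_left (Real.exp_le_exp.2 ?_) ?_
    · refine mul_le_mul_of_nonneg_left (flow_energy hN) ?_
      positivity
    · exact mul_nonneg (pow_nonneg (P_pos h0 l).le _) (P_pos hrp l).le
  have h2 : ex (wt a g) N n ≤ lam * ex (wt a 0) N n + K / lam ^ (r - 1) * ex (wt a (r * g)) N n := by
    unfold ex
    rw [Finset.mul_sum, Finset.mul_sum, ← Finset.sum_add_distrib]
    refine Finset.sum_le_sum fun m _ => ?_
    rw [Finset.mul_sum, Finset.mul_sum, ← Finset.sum_add_distrib]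
    exact Finset.sum_le_sum fun l hl' => key m l hl'
  have h3 : ex (wt a (r * g)) N n ≤ 1 := by
    have h := cons_total hrp (zero_mem_ball hN) n
    change rt (wt a (r * g)) N n + ex (wt a (r * g)) N n + _ = 1 at h
    have := rt_nonneg hrp N n
    have := alive_nonneg hrp N n
    linarith
  have h4 : K / lam ^ (r - 1) * ex (wt a (r * g)) N n ≤ K / lam ^ (r - 1) := by
    have : 0 ≤ K / lam ^ (r - 1) := by positivity
    nlinarith
  linarith

lemma final_div {c0 a lam R L M : ℝ} (hc : 0 < c0) (ha : 0 < a) (hl : 0 < lam) (hR : 0 < R)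
    (hL : 0 < 1 + L) (hM : 0 < 1 + M) (h : R ≤ 4 * (1 + M)) :
    c0 / (10 * a * lam * 2) / Real.sqrt ((1 + L) * (1 + M)) ≤
      c0 / Real.sqrt (R * (1 + L)) / (10 * a * lam) := by
  have hs : Real.sqrt (R * (1 + L)) ≤ 2 * Real.sqrt ((1 + L) * (1 + M)) := by
    rw [Real.sqrt_le_left (by positivity), mul_pow, Real.sq_sqrt (by positivity)]
    nlinarith
  have hs0 : 0 < Real.sqrt (R * (1 + L)) := Real.sqrt_pos.2 (by positivity)
  have h1 : c0 / (10 * a * lam * 2) / Real.sqrt ((1 + L) * (1 + M)) =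
      c0 / (2 * Real.sqrt ((1 + L) * (1 + M))) / (10 * a * lam) := by
    rw [div_div, div_div]
    congr 1
    ring
  rw [h1]
  apply div_le_div_of_nonneg_right _ (by positivity)
  exact div_le_div_of_nonneg_left hc.le hs0 hs

lemma final_add {a g lam E : ℝ} (ha : 0 < a) (hl : 0 < lam)
    (h : g / (5 * a) ≤ lam * E + g / (10 * a)) : g / (10 * a * lam) ≤ E := by
  have h1 : g / (5 * a) = g / (10 * a) + g / (10 * a) := by
    field_simp
    ring
  have h2 : g / (10 * a) ≤ lam * E := by linarith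
  have h3 : g / (10 * a * lam) = g / (10 * a) / lam := by rw [div_div]
  rw [h3, div_le_iff₀ hl]
  linarith [mul_comm lam E]

set_option maxHeartbeats 1000000 in
/-- The lower bound for the escape probability, in terms of path sums. -/
theorem escape_sum {a : ℝ} (ha : 0 < a) : ∃ c : ℝ, 0 < c ∧ ∀ N : ℕ, 1 ≤ N → ∃ n,
    c / Real.sqrt ((1 + Real.log N) * (1 + Real.log (1 + Real.log N))) ≤ ex (wt a 0) N n := by
  set Ca : ℝ := 1 / a ^ 2 + 1 / a with hCa
  have hCa0 : 0 < Ca := by positivity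
  set c0 : ℝ := min (a / 2) (1 / Real.sqrt (2 * Ca)) with hc0
  have hc0p : 0 < c0 := by
    rw [hc0]
    positivity
  have hc0a : c0 ≤ a / 2 := min_le_left _ _
  have hc0C : 2 * Ca * c0 ^ 2 ≤ 1 := by
    have h1 : c0 ≤ 1 / Real.sqrt (2 * Ca) := min_le_right _ _
    have h2 : c0 ^ 2 ≤ (1 / Real.sqrt (2 * Ca)) ^ 2 := pow_le_pow_left₀ hc0p.le h1 2
    rw [div_pow, one_pow, Real.sq_sqrt (by positivity)] at h2
    calc 2 * Ca * c0 ^ 2 ≤ 2 * Ca * (1 / (2 * Ca)) := by
          apply mul_le_mul_of_nonneg_left h2 (by positivity)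
      _ = 1 := by field_simp
  -- the constant `lam`
  set C' : ℝ := max 0 (Real.log (10 * a / c0)) with hC'
  set lam : ℝ := Real.exp (C' + 4) with hlam
  have hlam0 : 0 < lam := Real.exp_pos _
  refine ⟨c0 / (10 * a * lam * 2), by positivity, fun N hN => ?_⟩
  set L : ℝ := Real.log N with hL
  have hL0 : 0 ≤ L := Real.log_nonneg (by exact_mod_cast hN)
  set M : ℝ := Real.log (1 + L) with hM
  have hM0 : 0 ≤ M := Real.log_nonneg (by linarith)
  set r : ℕ := ⌈M⌉₊ + 2 with hr
  have hr2 : 2 ≤ r := by omega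
  have hrM : M + 2 ≤ (r : ℝ) := by
    rw [hr]
    push_cast
    linarith [Nat.le_ceil M]
  have hrM' : (r : ℝ) ≤ M + 3 := by
    rw [hr]
    push_cast
    linarith [Nat.ceil_lt_add_one hM0]
  have hr0 : (0 : ℝ) < r := by linarith
  have hML : M ≤ L := by
    have := Real.log_le_sub_one_of_pos (show (0 : ℝ) < 1 + L by linarith)
    rw [hM]
    linarith
  have h1L : 0 < 1 + L := by linarith
  set g : ℝ := c0 / Real.sqrt (r * (1 + L)) with hg
  have hs0 : 0 < Real.sqrt (r * (1 + L)) := Real.sqrt_pos.2 (by positivity)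
  have hg0 : 0 < g := by positivity
  have hg2 : g ^ 2 = c0 ^ 2 / (r * (1 + L)) := by
    rw [hg, div_pow, Real.sq_sqrt (by positivity)]
  -- r * g ≤ a
  have hrg : (r : ℝ) * g ≤ a := by
    have h1 : ((r : ℝ) * g) ^ 2 ≤ a ^ 2 := by
      rw [mul_pow, hg2]
      have h2 : (r : ℝ) ^ 2 * (c0 ^ 2 / (r * (1 + L))) = c0 ^ 2 * (r / (1 + L)) := by
        field_simp
      rw [h2]
      have h3 : (r : ℝ) / (1 + L) ≤ 4 := by
        rw [div_le_iff₀ h1L]
        linarith
      have h4 : c0 ^ 2 ≤ (a / 2) ^ 2 := pow_le_pow_left₀ hc0p.le hc0a 2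
      calc c0 ^ 2 * (r / (1 + L)) ≤ (a / 2) ^ 2 * 4 := by
            apply mul_le_mul h4 h3 (by positivity) (by positivity)
        _ = a ^ 2 := by ring
    exact le_of_sq_le_sq h1 ha.le
  have hga : g ≤ a := by
    have : (1 : ℝ) ≤ r := by linarith
    nlinarith
  -- the exponent
  have hexp : (r : ℝ) ^ 2 * g ^ 2 * Ca * (2 * (1 + L)) ≤ r := by
    rw [hg2]
    have h2 : (r : ℝ) ^ 2 * (c0 ^ 2 / (r * (1 + L))) * Ca * (2 * (1 + L)) =
        (2 * Ca * c0 ^ 2) * r := by
      field_simp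
    rw [h2]
    nlinarith
  obtain ⟨n, hn⟩ := ex_lower ha hg0 hga hN
  refine ⟨n, ?_⟩
  have hcmp := ex_compare ha hg0.le hr2 hrg hN n hlam0
  -- the error term
  have herr : Real.exp ((r : ℝ) ^ 2 * g ^ 2 * (1 / a ^ 2 + 1 / a) * (2 * (1 + Real.log N))) /
        lam ^ (r - 1) ≤ g / (10 * a) := by
    rw [div_le_iff₀ (by positivity)]
    have hlampow : lam ^ (r - 1) = Real.exp ((C' + 4) * (r - 1)) := by
      rw [hlam, ← Real.exp_nat_mul]
      congr 1
      rw [Nat.cast_sub (by omega)]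
      push_cast
      ring
    have h10 : 0 < g / (10 * a) := by positivity
    rw [hlampow]
    have hglog : g / (10 * a) = Real.exp (Real.log (g / (10 * a))) := (Real.exp_log h10).symm
    rw [hglog, ← Real.exp_add]
    apply Real.exp_le_exp.2
    have hlg : Real.log (g / (10 * a)) =
        - Real.log (10 * a / c0) - (Real.log r + M) / 2 := by
      rw [hg, Real.log_div (by positivity) (by positivity),
        Real.log_div (by positivity) (by positivity), Real.log_sqrt (by positivity),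
        Real.log_mul (by positivity) (by positivity), Real.log_div (by positivity) (by positivity)]
      ring
    rw [hlg]
    have hlr : Real.log r ≤ r - 1 := Real.log_le_sub_one_of_pos hr0
    have hC1 : Real.log (10 * a / c0) ≤ C' := le_max_right _ _
    have hC0 : 0 ≤ C' := le_max_left _ _
    have hr1' : (1 : ℝ) ≤ r - 1 := by linarith
    have : C' ≤ C' * (r - 1) := by nlinarith
    nlinarith
  have hfin2 : g / (10 * a * lam) ≤ ex (wt a 0) N n :=
    final_add ha hlam0 (hn.trans (hcmp.trans (add_le_add le_rfl herr)))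
  refine le_trans ?_ hfin2
  rw [hg]
  exact final_div hc0p ha hlam0 hr0 h1L (by linarith) (by linarith)

end Pool.Agent.DRW
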