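import Pool.Agent.DRW.Defs

/-! Stubs (working file, not imported by the final files). -/

namespace Pool.Agent.DRW

/-- Module Cons. -/
theorem cons_total {w : ℤ × ℤ → Fin 4 → ℝ} (hw : ∀ x i, 0 < w x i) {B : Finset (ℤ × ℤ)}
    (h0 : (0 : ℤ × ℤ) ∈ B) (n : ℕ) :
    (∑ m ∈ Finset.range (n + 1), ∑ l ∈ retS B m, P w l) +
      (∑ m ∈ Finset.range (n + 1), ∑ l ∈ exitS B m, P w l) + ∑ l ∈ aliveS B n, P w l = 1 := by
  sorry

/-- Module Rev. -/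
theorem ret_reverse {w w' : ℤ × ℤ → Fin 4 → ℝ} (hw : ∀ x i, 0 < w x i)
    (hw' : ∀ x i, 0 < w' x i) (hrev : ∀ x i, w' (x + d i) (opp i) = w x i)
    (hW : ∀ x, x ≠ 0 → W w' x = W w x) (B : Finset (ℤ × ℤ)) (m : ℕ) :
    W w 0 * ∑ l ∈ retS B m, P w l = W w' 0 * ∑ l ∈ retS B m, P w' l := by
  sorry

/-- Module Surv. -/
theorem alive_small {w : ℤ × ℤ → Fin 4 → ℝ} (hw : ∀ x i, 0 < w x i) (B : Finset (ℤ × ℤ))
    {ε : ℝ} (hε : 0 < ε) : ∃ n, ∑ l ∈ aliveS B n, P w l ≤ ε := by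
  sorry

/-- Module Pow. -/
theorem pow_compare {a g : ℝ} (ha : 0 < a) (hg : 0 ≤ g) {r : ℕ} (hr : 1 ≤ r)
    (hgr : r * g ≤ a) {N : ℕ} {l : List (Fin 4)} (hl : ∀ v ∈ src l, v ∈ ball N) :
    P (wt a g) l ^ r ≤ P (wt a 0) l ^ (r - 1) * P (wt a (r * g)) l *
      Real.exp ((r : ℝ) ^ 2 * g ^ 2 * (1 / a ^ 2 + 1 / a) *
        ∑ x ∈ ball N, ∑ i, flow x i ^ 2) := by
  sorry

/-- Module Flow. -/
theorem flow_anti (x : ℤ × ℤ) (i : Fin 4) : flow (x + d i) (opp i) = - flow x i := by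
  sorry

theorem flow_div (x : ℤ × ℤ) : ∑ i, flow x i = if x = 0 then 1 else 0 := by
  sorry

theorem flow_abs (x : ℤ × ℤ) (i : Fin 4) : |flow x i| ≤ 1 / 2 := by
  sorry

theorem flow_energy {N : ℕ} (hN : 1 ≤ N) :
    ∑ x ∈ ball N, ∑ i, flow x i ^ 2 ≤ 2 * (1 + Real.log N) := by
  sorry

/-- Module Meas. -/
theorem measure_exit {a : ℝ} (ha : 0 < a) {Ω : Type} [MeasurableSpace Ω]
    (μ : MeasureTheory.Measure Ω) [MeasureTheory.IsProbabilityMeasure μ] (X : ℕ → Ω → ℤ × ℤ)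
    (hX : ∀ n, Measurable (X n))
    (hlaw : ∀ (n : ℕ) (s : ℕ → ℤ × ℤ), μ {ω | ∀ k ≤ n, X k ω = s k} =
     if s 0 = 0 then
       ENNReal.ofReal (∏ k ∈ Finset.range n,
        (if (s (k+1) - s k).1.natAbs + (s (k+1) - s k).2.natAbs = 1 then
          (a + (((Finset.range k).filter (fun j => s j = s k ∧ s (j+1) = s (k+1))).card : ℝ)) /
          (4 * a + (((Finset.range k).filter (fun j => s j = s k)).card : ℝ))
        else 0))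
     else 0) (N n : ℕ) (hN : 1 ≤ N) :
    ENNReal.ofReal (∑ m ∈ Finset.range (n + 1), ∑ l ∈ exitS (ball N) m, P (wt a 0) l) ≤
      μ {ω | ∃ n, N ≤ (X n ω).1.natAbs + (X n ω).2.natAbs ∧
        ∀ k, 0 < k → k ≤ n → X k ω ≠ 0} := by
  sorry

end Pool.Agent.DRW
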